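import Pool.Agent.H62P.SkelK
import Pool.Agent.H62P.TransP
import Pool.Agent.H62P.SideP
import Pool.Agent.H92P.CutStep
import Pool.Agent.H93L.Glue
import Pool.Agent.H6T.Lab4

/-! 2-factors with at most `k` cycles: the assembly, for all `k` and all graphs. -/

set_option autoImplicit false

namespace Pool.Agent.H76B

open List Pool.Agent.TF82 Pool.Agent.TFC Pool.Agent.TFB Pool.Agent.EG31
  Pool.Agent.H18C Pool.Agent.H62P

universe u

theorem labAll : Pool.Agent.H93L.LabAll.{u} := by
  intro V _ _ G _ W b c hC h2 hM J hJU hJ hJg hJr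
  exact Pool.Agent.H6T.Lab.lab hC h2 (by simpa using hM) (by simp) hJU hJ hJg hJr

theorem mainStepP : MainStepP.{u} := Pool.Agent.H93L.mainStepP_of_lab labAll

theorem mainStep : MainStep.{u} :=
  mainStep_of_pkg Pool.Agent.H92P.cutStepP sideStepP mainStepP transferP

theorem two_factor_all {V : Type u} [Fintype V] [DecidableEq V]
    (G : SimpleGraph V) [DecidableRel G.Adj] (k : ℕ)
    (hC : ∀ I : Finset V, G.IsIndepSet (I : Set V) → ∀ v ∈ I, I.card + 1 ≤ G.degree v)
    (hσ : ∀ I : Finset V, G.IsIndepSet (I : Set V) → I.card = k + 1 →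
      Fintype.card V ≤ ∑ v ∈ I, G.degree v) :
    ∃ F : SimpleGraph V, F ≤ G ∧ (∀ v, (F.neighborSet v).ncard = 2) ∧
      Nat.card F.ConnectedComponent ≤ k := by
  have hd : ∀ v, dU G Finset.univ v = G.degree v := by
    intro v
    unfold dU
    rw [← SimpleGraph.card_neighborFinset_eq_degree, SimpleGraph.neighborFinset_eq_filter]
  apply twoFactor_of_cov
  refine cov_all_of_main mainStep G k ?_ ?_
  · intro I hI v hv
    rw [hd]
    exact hC I hI v hv
  · intro I hI hIk
    have := hσ I hI hIk
    simpa only [hd] using this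

end Pool.Agent.H76B
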