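import Mathlib

/-! The arithmetic of the count with runs (helper32's note): abstract form. -/

namespace Pool.Agent.H76B

open Finset

/-- data of the count: `ι` components, `V` vertices, `σ` optional vertices outside. -/
structure CD (ι V σ : Type*) [Fintype ι] [DecidableEq ι] [DecidableEq V] [Fintype σ]
    [DecidableEq σ] where
  m : ι → ℕ
  hm : ∀ l, 1 ≤ m l
  /-- hubs -/
  A : ι → Finset V
  hA : ∀ l, 2 ≤ (A l).card
  /-- number of members seen -/
  n : ι → V → ℕ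
  hn : ∀ l y, n l y ≤ m l
  /-- link lengths -/
  L : ι → V → V → ℕ
  F1 : ∀ l, ∀ y ∈ A l, ∀ w ∈ A l, y ≠ w → 1 ≤ n l y →
    (∑ j, m j) + Fintype.card σ + n l y ≤ L l w y + m l ∧
    (∑ j, m j) + Fintype.card σ + n l y ≤ L l y w + m l
  F2 : ∀ l, ∀ y ∈ A l, ∀ w ∈ A l, y ≠ w → 1 ≤ n l y → 1 ≤ n l w → 3 ≤ n l y + n l w →
    2 * (∑ j, m j) + 2 * Fintype.card σ + n l w + n l y ≤ L l w y + 2 * m l
  /-- run lengths, run vertices, labels, weak components at the end of the run -/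
  g : V → ℕ
  vt : V → ℕ → V
  vt0 : ∀ w, vt w 0 = w
  lab : V → ℕ → ι ⊕ σ
  Om : V → Finset ι
  lab_hub : ∀ l, ∀ w ∈ A l, ∀ j, 1 ≤ j → j ≤ g w → ∀ i, lab w j = Sum.inl i → vt w j ∈ A i
  inj : ∀ l, ∀ w ∈ A l, ∀ w' ∈ A l, (w = w' ∨ 1 ≤ n l w ∨ 1 ≤ n l w') → ∀ j j', 1 ≤ j →
    j ≤ g w → 1 ≤ j' → j' ≤ g w' → lab w j = lab w' j' → w = w' ∧ j = j'
  self : ∀ l, ∀ w ∈ A l, ∀ j, 1 ≤ j → j ≤ g w → lab w j ≠ Sum.inl l
  om_lab : ∀ l, ∀ w ∈ A l, ∀ w' ∈ A l, (w = w' ∨ 1 ≤ n l w ∨ 1 ≤ n l w') → ∀ j, 1 ≤ j →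
    j ≤ g w → ∀ i ∈ Om w', lab w j ≠ Sum.inl i
  om_dis : ∀ l, ∀ w ∈ A l, ∀ w' ∈ A l, w ≠ w' → (1 ≤ n l w ∨ 1 ≤ n l w') →
    Disjoint (Om w) (Om w')
  om_self : ∀ l, ∀ w ∈ A l, 1 ≤ n l w → l ∉ Om w
  om_weak : ∀ l, ∀ w ∈ A l, ∀ i ∈ Om w, ∃ u ∈ A i, n i u = 0
  /-- non-neighbours of the end of the run -/
  nn : V → ℕ
  sup : ∀ l0, ∀ w ∈ A l0, ∀ j ≤ g w, ∀ l, vt w j ∈ A l → ∀ W ⊆ A l, vt w j ∈ W →
    (∀ y ∈ W, ∀ z ∈ W, y ≠ z → 1 ≤ n l y ∨ 1 ≤ n l z) → ∀ c : V → ℕ,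
    (∀ y ∈ W, y ≠ vt w j → c y + (g w - j) ≤ L l (vt w j) y) →
    (∀ y ∈ W, y ≠ vt w j → ∀ z ∈ W, z ≠ y → c y ≤ L l z y) →
    ∑ y ∈ W.erase (vt w j), c y ≤ nn w

namespace CD

variable {ι V σ : Type*} [Fintype ι] [DecidableEq ι] [DecidableEq V] [Fintype σ] [DecidableEq σ]

/-- seen hubs -/
def S (d : CD ι V σ) (l : ι) : Finset V := (d.A l).filter (fun y => 1 ≤ d.n l y)

/-- number of incidences -/
def T (d : CD ι V σ) (l : ι) : ℕ := ∑ y ∈ d.S l, d.n l y

theorem mem_S (d : CD ι V σ) {l : ι} {y : V} : y ∈ d.S l ↔ y ∈ d.A l ∧ 1 ≤ d.n l y := by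
  unfold S; rw [mem_filter]

theorem gg (d : CD ι V σ) (l : ι) (W : Finset V) (hW : W ⊆ d.A l)
    (hp : ∀ y ∈ W, ∀ z ∈ W, y ≠ z → 1 ≤ d.n l y ∨ 1 ≤ d.n l z) (x : V → ℕ)
    (hx : ∀ w ∈ W, x w ≤ d.g w) (Tg : Finset (ι ⊕ σ))
    (h1 : ∀ w ∈ W, ∀ j, d.g w - x w < j → j ≤ d.g w → d.lab w j ∈ Tg)
    (h2 : ∀ w ∈ W, ∀ i ∈ d.Om w, Sum.inl i ∈ Tg) :
    ∑ w ∈ W, (x w + (d.Om w).card) ≤ Tg.card := by
  set X : V → Finset (ι ⊕ σ) := fun w =>
    (Ioc (d.g w - x w) (d.g w)).image (d.lab w) ∪ (d.Om w).image Sum.inl with hX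
  have hcard : ∀ w ∈ W, (X w).card = x w + (d.Om w).card := by
    intro w hw
    have hwA := hW hw
    rw [hX]
    simp only
    rw [card_union_of_disjoint, card_image_of_injOn, card_image_of_injOn, Nat.card_Ioc]
    · have := hx w hw
      omega
    · intro a _ c _ hac
      exact Sum.inl_injective hac
    · intro a ha c hc hac
      rw [mem_coe, mem_Ioc] at ha hc
      exact (d.inj l w hwA w hwA (Or.inl rfl) a c (by omega) ha.2 (by omega) hc.2 hac).2
    · rw [disjoint_left]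
      intro a ha hc
      obtain ⟨j, hj, rfl⟩ := mem_image.1 ha
      obtain ⟨i, hi, hij⟩ := mem_image.1 hc
      rw [mem_Ioc] at hj
      exact d.om_lab l w hwA w hwA (Or.inl rfl) j (by omega) hj.2 i hi hij.symm
  have hdis : (W : Set V).PairwiseDisjoint X := by
    intro w hw w' hw' hne
    rw [mem_coe] at hw hw'
    have hwA := hW hw
    have hwA' := hW hw'
    have hor := hp w hw w' hw' hne
    rw [Function.onFun, disjoint_left]
    intro a ha hc
    rw [hX] at ha hc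
    simp only [mem_union, mem_image, mem_Ioc] at ha hc
    rcases ha with ⟨j, hj, rfl⟩ | ⟨i, hi, rfl⟩ <;> rcases hc with ⟨j', hj', h⟩ | ⟨i', hi', h⟩
    · exact hne (d.inj l w hwA w' hwA' (Or.inr hor) j j' (by omega) hj.2 (by omega) hj'.2
        h.symm).1
    · exact d.om_lab l w hwA w' hwA' (Or.inr hor) j (by omega) hj.2 i' hi' h.symm
    · exact d.om_lab l w' hwA' w hwA (Or.inr hor.symm) j' (by omega) hj'.2 i hi h
    · have h3 := d.om_dis l w hwA w' hwA' hne hor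
      rw [disjoint_left] at h3
      have : i' = i := Sum.inl_injective h
      exact h3 hi (this ▸ hi')
  rw [← sum_congr rfl hcard, ← card_biUnion hdis]
  apply card_le_card
  intro a ha
  rw [mem_biUnion] at ha
  obtain ⟨w, hw, ha⟩ := ha
  rw [hX] at ha
  simp only [mem_union, mem_image, mem_Ioc] at ha
  rcases ha with ⟨j, hj, rfl⟩ | ⟨i, hi, rfl⟩
  · exact h1 w hw j hj.1 hj.2
  · exact h2 w hw i hi

theorem g1 (d : CD ι V σ) (l : ι) (W : Finset V) (hW : W ⊆ d.S l) :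
    ∑ w ∈ W, (d.g w + (d.Om w).card) + 1 ≤ Fintype.card ι + Fintype.card σ := by
  have hS : ∀ w ∈ W, w ∈ d.A l ∧ 1 ≤ d.n l w := fun w hw => d.mem_S.1 (hW hw)
  have h := d.gg l W (fun w hw => (hS w hw).1) (fun y hy z _ _ => Or.inl (hS y hy).2)
    (fun w => d.g w) (fun w _ => le_rfl) (univ.erase (Sum.inl l))
    (fun w hw j hj1 hj2 => mem_erase.2 ⟨d.self l w (hS w hw).1 j (by omega) hj2, mem_univ _⟩)
    (fun w hw i hi => mem_erase.2 ⟨fun h => d.om_self l w (hS w hw).1 (hS w hw).2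
      (Sum.inl_injective h ▸ hi), mem_univ _⟩)
  rw [card_erase_of_mem (mem_univ _), card_univ, Fintype.card_sum] at h
  have : 0 < Fintype.card ι := Fintype.card_pos_iff.2 ⟨l⟩
  omega

theorem g2 (d : CD ι V σ) (l : ι) (W : Finset V) (hW : W ⊆ d.A l)
    (hp : ∀ y ∈ W, ∀ z ∈ W, y ≠ z → 1 ≤ d.n l y ∨ 1 ≤ d.n l z) :
    ∑ w ∈ W, (d.g w + (d.Om w).card) ≤ Fintype.card ι + Fintype.card σ := by
  have h := d.gg l W hW hp (fun w => d.g w) (fun w _ => le_rfl) univ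
    (fun w hw j hj1 hj2 => mem_univ _) (fun w hw i hi => mem_univ _)
  rw [card_univ, Fintype.card_sum] at h
  exact h

theorem card_le_sum_m (d : CD ι V σ) : Fintype.card ι ≤ ∑ j, d.m j := by
  have : ∑ _j : ι, 1 ≤ ∑ j, d.m j := sum_le_sum (fun j _ => d.hm j)
  simpa using this

theorem card_le_sum_m' (d : CD ι V σ) (i : ι) : Fintype.card ι + d.m i ≤ (∑ j, d.m j) + 1 := by
  have h1 := sum_erase_add univ (fun j => d.m j) (mem_univ i)
  have h2 : ∑ _j ∈ univ.erase i, 1 ≤ ∑ j ∈ univ.erase i, d.m j :=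
    sum_le_sum (fun j _ => d.hm j)
  rw [sum_const, card_erase_of_mem (mem_univ _), card_univ, smul_eq_mul, mul_one] at h2
  have : 0 < Fintype.card ι := Fintype.card_pos_iff.2 ⟨i⟩
  omega

theorem T_le (d : CD ι V σ) (l : ι) : d.T l ≤ d.m l * (d.S l).card := by
  unfold T
  have := sum_le_card_nsmul (d.S l) (fun y => d.n l y) (d.m l) (fun y _ => d.hn l y)
  rw [smul_eq_mul, mul_comm] at this
  exact this

theorem card_le_T (d : CD ι V σ) (l : ι) : (d.S l).card ≤ d.T l := by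
  unfold T
  have := card_nsmul_le_sum (d.S l) (fun y => d.n l y) 1 (fun y hy => (d.mem_S.1 hy).2)
  rw [smul_eq_mul, mul_one] at this
  exact this

/-- what has to be found -/
def Goal (d : CD ι V σ) : Prop :=
  ∃ l, ∃ w ∈ d.A l, (∑ l, ((d.T l : ℤ) - 1)) + (d.Om w).card ≤ d.nn w

/-- the case `h = 0` -/
theorem case0 (d : CD ι V σ) (i : ι) (hi : ∀ l, ((d.T l : ℤ) - 1) * d.m i ≤
    ((d.T i : ℤ) - 1) * d.m l) (h0 : (d.S i).card = 0) : d.Goal := by
  have hTi : d.T i = 0 := by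
    have := d.T_le i
    rw [h0] at this
    omega
  have hall : ∀ l, (d.T l : ℤ) - 1 ≤ -1 := by
    intro l
    have h1 := hi l
    rw [hTi] at h1
    have h2 := d.hm l
    have h3 := d.hm i
    by_contra hcon
    push Not at hcon
    have h4 : (0 : ℤ) ≤ (d.T l : ℤ) - 1 := by omega
    have h5 : (0 : ℤ) ≤ ((d.T l : ℤ) - 1) * d.m i := mul_nonneg h4 (by positivity)
    have h6 : (1 : ℤ) ≤ d.m l := by exact_mod_cast h2
    push_cast at h1
    linarith
  obtain ⟨w, hw⟩ : (d.A i).Nonempty := card_pos.1 (by have := d.hA i; omega)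
  refine ⟨i, w, hw, ?_⟩
  have h1 : ∑ l, ((d.T l : ℤ) - 1) ≤ ∑ _l : ι, (-1 : ℤ) := sum_le_sum (fun l _ => hall l)
  have h2 : (d.Om w).card ≤ Fintype.card ι := card_le_univ _
  simp at h1
  have h3 : (0 : ℤ) ≤ d.nn w := by positivity
  have h4 : ((d.Om w).card : ℤ) ≤ Fintype.card ι := by exact_mod_cast h2
  have h5 : ∑ l, ((d.T l : ℤ) - 1) = ∑ l, (d.T l : ℤ) - Fintype.card ι := by
    rw [sum_sub_distrib]; simp
  rw [h5]
  linarith

/-- the case `h = 1` -/
theorem case1 (d : CD ι V σ) (i : ι) (hi : ∀ l, ((d.T l : ℤ) - 1) * d.m i ≤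
    ((d.T i : ℤ) - 1) * d.m l) (h0 : (d.S i).card = 1) : d.Goal := by
  obtain ⟨w, hw⟩ := card_eq_one.1 h0
  have hwS : w ∈ d.S i := by rw [hw]; simp
  have hwA := d.mem_S.1 hwS
  have hT : d.T i = d.n i w := by unfold T; rw [hw]; simp
  have hnm := d.hn i w
  obtain ⟨w', hw', hne⟩ := exists_mem_ne (s := d.A i) (by have := d.hA i; omega) w
  -- supply
  have hg := d.g1 i {w} (by intro z hz; rw [mem_singleton] at hz; rw [hz]; exact hwS)
  rw [sum_singleton] at hg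
  have hF := d.F1 i w hwA.1 w' hw' (fun h => hne h.symm) hwA.2
  have hK := d.card_le_sum_m' i
  have hsup := d.sup i w hwA.1 0 (Nat.zero_le _) i (by rw [d.vt0]; exact hwA.1) {w, w'}
    (by intro z hz; rw [mem_insert, mem_singleton] at hz; rcases hz with rfl | rfl; exacts [hwA.1, hw'])
    (by rw [d.vt0]; simp) (by
      intro y hy z hz hyz
      rw [mem_insert, mem_singleton] at hy hz
      rcases hy with rfl | rfl
      · exact Or.inl hwA.2
      · rcases hz with rfl | rfl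
        · exact Or.inr hwA.2
        · exact absurd rfl hyz)
    (fun _ => (∑ j, d.m j) + Fintype.card σ + d.n i w - d.m i - d.g w) (by
      intro y hy hyw
      rw [d.vt0] at hyw ⊢
      rw [mem_insert, mem_singleton] at hy
      rcases hy with rfl | rfl
      · exact absurd rfl hyw
      · have := hF.2
        omega) (by
      intro y hy hyw z hz hzy
      rw [d.vt0] at hyw
      rw [mem_insert, mem_singleton] at hy hz
      rcases hy with rfl | rfl
      · exact absurd rfl hyw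
      · rcases hz with rfl | rfl
        · have := hF.2
          omega
        · exact absurd rfl hzy)
  rw [d.vt0] at hsup
  have her : ({w, w'} : Finset V).erase w = {w'} := by
    ext z
    simp only [mem_erase, mem_insert, mem_singleton]
    constructor
    · rintro ⟨h1, h2 | h2⟩
      · exact absurd h2 h1
      · exact h2
    · rintro rfl
      exact ⟨hne, Or.inr rfl⟩
  rw [her, sum_singleton] at hsup
  -- demand
  have hall : ∀ l, (d.T l : ℤ) - 1 ≤ d.m l - 1 := by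
    intro l
    have h1 := hi l
    by_contra hcon
    push Not at hcon
    have h2 : (d.m l : ℤ) ≤ (d.T l : ℤ) - 1 := by omega
    have h3 : (d.m l : ℤ) * d.m i ≤ ((d.T l : ℤ) - 1) * d.m i :=
      mul_le_mul_of_nonneg_right h2 (by positivity)
    have h4 : (d.T i : ℤ) - 1 ≤ d.m i - 1 := by
      rw [hT]
      have : (d.n i w : ℤ) ≤ d.m i := by exact_mod_cast hnm
      linarith
    have h5 : ((d.T i : ℤ) - 1) * d.m l ≤ (d.m i - 1) * d.m l :=
      mul_le_mul_of_nonneg_right h4 (by positivity)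
    have h6 : (1 : ℤ) ≤ d.m l := by exact_mod_cast d.hm l
    nlinarith
  refine ⟨i, w, hwA.1, ?_⟩
  have hs1 := sum_erase_add univ (fun l => ((d.T l : ℤ) - 1)) (mem_univ i)
  have hs2 : ∑ l ∈ univ.erase i, ((d.T l : ℤ) - 1) ≤ ∑ l ∈ univ.erase i, ((d.m l : ℤ) - 1) :=
    sum_le_sum (fun l _ => hall l)
  have hs3 := sum_erase_add univ (fun l => ((d.m l : ℤ) - 1)) (mem_univ i)
  have hs4 : ∑ l, ((d.m l : ℤ) - 1) = (∑ l, (d.m l : ℤ)) - Fintype.card ι := by
    rw [sum_sub_distrib]; simp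
  have hs5 : ((∑ l, d.m l : ℕ) : ℤ) = ∑ l, (d.m l : ℤ) := by push_cast; rfl
  have hwT : (d.T i : ℤ) = d.n i w := by exact_mod_cast hT
  have hn1 := hwA.2
  zify at hg hK hsup hn1
  have hsup' : ((∑ j, (d.m j : ℤ)) + Fintype.card σ + d.n i w - d.m i - d.g w) ≤ d.nn w := by
    have : ((∑ j, d.m j) + Fintype.card σ + d.n i w - d.m i - d.g w : ℕ) ≤ d.nn w := by
      exact_mod_cast hsup
    have h9 : (∑ j, d.m j) + Fintype.card σ + d.n i w ≤ d.nn w + d.m i + d.g w := by omega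
    have h10 : (((∑ j, d.m j) + Fintype.card σ + d.n i w : ℕ) : ℤ) ≤
        ((d.nn w + d.m i + d.g w : ℕ) : ℤ) := by exact_mod_cast h9
    push_cast at h10
    linarith
  linarith

/-- all pairs of seen hubs see together at least three members -/
theorem case2 (d : CD ι V σ) (i : ι) (hi : ∀ l, ((d.T l : ℤ) - 1) * d.m i ≤
    ((d.T i : ℤ) - 1) * d.m l) (h2 : 2 ≤ (d.S i).card)
    (hone : ∀ y ∈ d.S i, ∀ z ∈ d.S i, y ≠ z → 3 ≤ d.n i y + d.n i z) : d.Goal := by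
  obtain ⟨w, hwS, hwmin⟩ := exists_min_image (d.S i) (fun y => d.n i y)
    (card_pos.1 (by omega))
  have hwA := d.mem_S.1 hwS
  have hg := d.g1 i {w} (by intro z hz; rw [mem_singleton] at hz; rw [hz]; exact hwS)
  rw [sum_singleton] at hg
  have hK := d.card_le_sum_m' i
  have hmk : d.m i ≤ ∑ j, d.m j := single_le_sum (f := fun j => d.m j) (fun _ _ => Nat.zero_le _)
    (mem_univ i)
  set k := ∑ j, d.m j with hk
  set sg := Fintype.card σ with hsg
  have hsup := d.sup i w hwA.1 0 (Nat.zero_le _) i (by rw [d.vt0]; exact hwA.1) (d.S i)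
    (filter_subset _ _) (by rw [d.vt0]; exact hwS)
    (fun y hy z hz _ => Or.inl (d.mem_S.1 hy).2)
    (fun y => 2 * (k - d.m i) + 2 * sg + d.n i w + d.n i y - d.g w) (by
      intro y hy hyw
      rw [d.vt0] at hyw ⊢
      have hyA := d.mem_S.1 hy
      have h3 := hone y hy w hwS hyw
      have := d.F2 i y hyA.1 w hwA.1 hyw hyA.2 hwA.2 h3
      rw [← hk, ← hsg] at this
      omega) (by
      intro y hy hyw z hz hzy
      have hyA := d.mem_S.1 hy
      have hzA := d.mem_S.1 hz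
      have h3 := hone y hy z hz (fun h => hzy h.symm)
      have := d.F2 i y hyA.1 z hzA.1 (fun h => hzy h.symm) hyA.2 hzA.2 h3
      have h4 := hwmin z hz
      rw [← hk, ← hsg] at this
      omega)
  rw [d.vt0] at hsup
  -- lower bound of the sum
  have hcardE : ((d.S i).erase w).card = (d.S i).card - 1 := card_erase_of_mem hwS
  have hsumE : ∑ y ∈ (d.S i).erase w, d.n i y + d.n i w = d.T i := sum_erase_add _ _ hwS
  have hlow : ((d.S i).card - 1) * (2 * (k - d.m i) + 2 * sg + d.n i w - d.g w) +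
      ∑ y ∈ (d.S i).erase w, d.n i y ≤
      ∑ y ∈ (d.S i).erase w, (2 * (k - d.m i) + 2 * sg + d.n i w + d.n i y - d.g w) := by
    rw [← hcardE, ← smul_eq_mul, ← sum_const, ← sum_add_distrib]
    apply sum_le_sum
    intro y _
    omega
  have hnn := hlow.trans hsup
  -- demand
  have hTm := d.T_le i
  have hall : ∀ l, l ≠ i → (d.T l : ℤ) - 1 ≤ d.m l * (d.S i).card - 1 := by
    intro l _
    have h1 := hi l
    by_contra hcon
    push Not at hcon
    have h3 : (d.m l : ℤ) * (d.S i).card ≤ (d.T l : ℤ) - 1 := by omega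
    have h4 : (d.m l : ℤ) * (d.S i).card * d.m i ≤ ((d.T l : ℤ) - 1) * d.m i :=
      mul_le_mul_of_nonneg_right h3 (by positivity)
    have h5 : (d.T i : ℤ) - 1 ≤ d.m i * (d.S i).card - 1 := by
      have : (d.T i : ℤ) ≤ d.m i * (d.S i).card := by exact_mod_cast hTm
      linarith
    have h6 : ((d.T i : ℤ) - 1) * d.m l ≤ (d.m i * (d.S i).card - 1) * d.m l :=
      mul_le_mul_of_nonneg_right h5 (by positivity)
    have h7 : (1 : ℤ) ≤ d.m l := by exact_mod_cast d.hm l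
    nlinarith
  refine ⟨i, w, hwA.1, ?_⟩
  have hs1 := sum_erase_add univ (fun l => ((d.T l : ℤ) - 1)) (mem_univ i)
  have hs2 : ∑ l ∈ univ.erase i, ((d.T l : ℤ) - 1) ≤
      ∑ l ∈ univ.erase i, ((d.m l : ℤ) * (d.S i).card - 1) :=
    sum_le_sum (fun l hl => hall l (ne_of_mem_erase hl))
  have hs3 := sum_erase_add univ (fun l => ((d.m l : ℤ) * (d.S i).card - 1)) (mem_univ i)
  have hs4 : ∑ l, ((d.m l : ℤ) * (d.S i).card - 1) =
      (∑ l, (d.m l : ℤ)) * (d.S i).card - Fintype.card ι := by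
    rw [sum_sub_distrib, ← sum_mul]; simp
  have hs5 : ((k : ℕ) : ℤ) = ∑ l, (d.m l : ℤ) := by rw [hk]; push_cast; rfl
  obtain ⟨h, hh⟩ : ∃ h, (d.S i).card = h + 2 := ⟨(d.S i).card - 2, by omega⟩
  obtain ⟨K, hKK⟩ : ∃ K, k = K + d.m i := ⟨k - d.m i, by omega⟩
  rw [hh] at hnn hs3 hs4 hs2
  have e1 : h + 2 - 1 = h + 1 := by omega
  have e2 : k - d.m i = K := by omega
  rw [e1, e2] at hnn
  obtain ⟨q, hq⟩ : ∃ q, 2 * K + 2 * sg + d.n i w = q + d.g w := by
    refine ⟨2 * K + 2 * sg + d.n i w - d.g w, ?_⟩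
    have := hwA.2
    omega
  have e3 : 2 * K + 2 * sg + d.n i w - d.g w = q := by omega
  rw [e3] at hnn
  have hn1 := hwA.2
  rw [← hs5] at hs4
  zify at hg hK hnn hn1 hsumE hq hKK
  have hprod : (0 : ℤ) ≤ h * ((K : ℤ) + sg - d.g w) := by
    apply mul_nonneg (by positivity)
    have : (0 : ℤ) ≤ ((d.Om w).card : ℤ) := by positivity
    linarith
  have hprod2 : (0 : ℤ) ≤ (h : ℤ) * d.n i w := by positivity
  have hprod3 : (0 : ℤ) ≤ (h : ℤ) * sg := by positivity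
  have hsg0 : (0 : ℤ) ≤ sg := by positivity
  have hq' : (q : ℤ) = 2 * K + 2 * sg + d.n i w - d.g w := by linarith
  rw [hq'] at hnn
  push_cast at hs3 hs4 hs2 hnn
  rw [hKK] at hs4
  nlinarith

end CD

end Pool.Agent.H76B
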