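import Pool.Agent.H76B.Count

/-! The arithmetic of the count, the averaging case. -/

namespace Pool.Agent.H76B

open Finset

namespace CD

variable {ι V σ : Type*} [Fintype ι] [DecidableEq ι] [DecidableEq V] [Fintype σ] [DecidableEq σ]

theorem arith3 {h1 K sg g om c2 N2 m' : ℤ} (a1 : 0 ≤ h1) (a2 : 0 ≤ K) (a3 : 0 ≤ sg) (a4 : 0 ≤ g)
    (a5 : 0 ≤ om) (a6 : 0 ≤ c2) (a7 : 0 ≤ N2) (a8 : 0 ≤ m') (hgK : 2 * (g + om) ≤ K + sg)
    (hN2 : N2 ≤ c2 * (m' + 2))
    (hfin : ((h1 + 1) * (K + sg + 1 - g) + (c2 * (K + sg + 1 - g + K + sg) + N2) + 1 - om) *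
      (m' + 2) ≤ (h1 + 2 + N2 - 1) * (K + (m' + 2))) : False := by
  have hN2K : N2 * K ≤ c2 * (m' + 2) * K := mul_le_mul_of_nonneg_right hN2 a2
  have hA : 0 ≤ (h1 + 1) * (K + sg - 2 * (g + om)) * (m' + 2) :=
    mul_nonneg (mul_nonneg (by linarith) (by linarith)) (by linarith)
  have hB : 0 ≤ c2 * (K + 2 * sg + 1 - g) * (m' + 2) :=
    mul_nonneg (mul_nonneg a6 (by linarith)) (by linarith)
  have hCc : 0 ≤ (h1 + 1) * K * m' := mul_nonneg (mul_nonneg (by linarith) a2) a8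
  have hDd : 0 ≤ (h1 + 1) * sg * (m' + 2) := mul_nonneg (mul_nonneg (by linarith) a3) (by linarith)
  have hE : 0 ≤ h1 * om * (m' + 2) := mul_nonneg (mul_nonneg a1 a5) (by linarith)
  nlinarith

/-- at least two seen hubs see exactly one member, `m i ≥ 2`: averaging -/
theorem case3 (d : CD ι V σ) (i : ι) (hi : ∀ l, ((d.T l : ℤ) - 1) * d.m i ≤
    ((d.T i : ℤ) - 1) * d.m l) (hm2 : 2 ≤ d.m i)
    (h2 : 2 ≤ ((d.S i).filter (fun y => d.n i y = 1)).card) : d.Goal := by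
  set S1 := (d.S i).filter (fun y => d.n i y = 1) with hS1
  set S2 := (d.S i).filter (fun y => ¬ d.n i y = 1) with hS2
  have hS1m : ∀ y ∈ S1, y ∈ d.S i ∧ d.n i y = 1 := fun y hy => mem_filter.1 hy
  have hS2m : ∀ y ∈ S2, y ∈ d.S i ∧ ¬ d.n i y = 1 := fun y hy => mem_filter.1 hy
  obtain ⟨w, hw1, hwmin⟩ := exists_min_image S1 (fun y => d.g y + (d.Om y).card)
    (card_pos.1 (by omega))
  have hwS := (hS1m w hw1).1
  have hwn := (hS1m w hw1).2
  have hwA := d.mem_S.1 hwS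
  have hg := d.g1 i S1 (filter_subset _ _)
  have hgm : S1.card * (d.g w + (d.Om w).card) ≤ ∑ y ∈ S1, (d.g y + (d.Om y).card) := by
    have := card_nsmul_le_sum S1 (fun y => d.g y + (d.Om y).card) (d.g w + (d.Om w).card)
      (fun y hy => hwmin y hy)
    rwa [smul_eq_mul] at this
  have hK := d.card_le_sum_m' i
  have hmk : d.m i ≤ ∑ j, d.m j := single_le_sum (f := fun j => d.m j) (fun _ _ => Nat.zero_le _)
    (mem_univ i)
  set k := ∑ j, d.m j with hk
  set sg := Fintype.card σ with hsg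
  have hgw2 : 2 * (d.g w + (d.Om w).card) ≤ S1.card * (d.g w + (d.Om w).card) :=
    Nat.mul_le_mul_right _ h2
  have hsup := d.sup i w hwA.1 0 (Nat.zero_le _) i (by rw [d.vt0]; exact hwA.1) (d.S i)
    (filter_subset _ _) (by rw [d.vt0]; exact hwS)
    (fun y hy z hz _ => Or.inl (d.mem_S.1 hy).2)
    (fun y => if d.n i y = 1 then (k - d.m i) + sg + 1 - d.g w
      else 2 * (k - d.m i) + 2 * sg + 1 + d.n i y - d.g w) (by
      intro y hy hyw
      rw [d.vt0] at hyw ⊢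
      have hyA := d.mem_S.1 hy
      by_cases hy1 : d.n i y = 1
      · have := (d.F1 i y hyA.1 w hwA.1 hyw hyA.2).1
        rw [← hk, ← hsg] at this
        rw [if_pos hy1]
        omega
      · have h4 := hyA.2
        have h3 : 3 ≤ d.n i y + d.n i w := by omega
        have := d.F2 i y hyA.1 w hwA.1 hyw hyA.2 hwA.2 h3
        rw [← hk, ← hsg] at this
        rw [if_neg hy1]
        omega) (by
      intro y hy hyw z hz hzy
      have hyA := d.mem_S.1 hy
      have hzA := d.mem_S.1 hz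
      by_cases hy1 : d.n i y = 1
      · have := (d.F1 i y hyA.1 z hzA.1 (fun h => hzy h.symm) hyA.2).1
        rw [← hk, ← hsg] at this
        rw [if_pos hy1]
        omega
      · have h4 := hyA.2
        have h5 := hzA.2
        have h3 : 3 ≤ d.n i y + d.n i z := by omega
        have := d.F2 i y hyA.1 z hzA.1 (fun h => hzy h.symm) hyA.2 hzA.2 h3
        rw [← hk, ← hsg] at this
        rw [if_neg hy1]
        omega)
  rw [d.vt0] at hsup
  -- split the sum
  have hdisj : Disjoint (S1.erase w) S2 := by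
    rw [disjoint_left]
    intro a ha hb
    exact (hS2m a hb).2 (hS1m a (mem_of_mem_erase ha)).2
  have hsubE : (S1.erase w) ∪ S2 ⊆ (d.S i).erase w := by
    intro a ha
    rcases mem_union.1 ha with ha | ha
    · exact mem_erase.2 ⟨(mem_erase.1 ha).1, (hS1m a (mem_of_mem_erase ha)).1⟩
    · exact mem_erase.2 ⟨fun h => (hS2m a ha).2 (h ▸ hwn), (hS2m a ha).1⟩
  have hlow := (sum_le_sum_of_subset (f := fun y => if d.n i y = 1 then (k - d.m i) + sg + 1 - d.g w
      else 2 * (k - d.m i) + 2 * sg + 1 + d.n i y - d.g w) hsubE).trans hsup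
  rw [sum_union hdisj] at hlow
  have hA1 : ∑ y ∈ S1.erase w, (if d.n i y = 1 then (k - d.m i) + sg + 1 - d.g w
      else 2 * (k - d.m i) + 2 * sg + 1 + d.n i y - d.g w) =
      (S1.card - 1) * ((k - d.m i) + sg + 1 - d.g w) := by
    rw [sum_congr rfl (g := fun _ => (k - d.m i) + sg + 1 - d.g w), sum_const,
      card_erase_of_mem hw1, smul_eq_mul]
    intro y hy
    rw [if_pos (hS1m y (mem_of_mem_erase hy)).2]
  have hA2 : S2.card * (2 * (k - d.m i) + 2 * sg + 1 - d.g w) + ∑ y ∈ S2, d.n i y ≤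
      ∑ y ∈ S2, (if d.n i y = 1 then (k - d.m i) + sg + 1 - d.g w
      else 2 * (k - d.m i) + 2 * sg + 1 + d.n i y - d.g w) := by
    rw [← smul_eq_mul, ← sum_const, ← sum_add_distrib]
    apply sum_le_sum
    intro y hy
    rw [if_neg (hS2m y hy).2]
    omega
  have hnn : (S1.card - 1) * ((k - d.m i) + sg + 1 - d.g w) +
      (S2.card * (2 * (k - d.m i) + 2 * sg + 1 - d.g w) + ∑ y ∈ S2, d.n i y) ≤ d.nn w := by
    rw [hA1] at hlow
    exact (Nat.add_le_add_left hA2 _).trans hlow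
  -- T
  have hT : d.T i = S1.card + ∑ y ∈ S2, d.n i y := by
    unfold T
    rw [← sum_filter_add_sum_filter_not (d.S i) (fun y => d.n i y = 1)]
    congr 1
    rw [sum_congr rfl (g := fun _ => 1) (fun y hy => (hS1m y hy).2), sum_const, smul_eq_mul,
      mul_one]
  have hN2 : ∑ y ∈ S2, d.n i y ≤ S2.card * d.m i := by
    have := sum_le_card_nsmul S2 (fun y => d.n i y) (d.m i) (fun y _ => d.hn i y)
    rwa [smul_eq_mul] at this
  -- demand
  have hdem : (∑ l, ((d.T l : ℤ) - 1)) * d.m i ≤ ((d.T i : ℤ) - 1) * k := by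
    rw [sum_mul]
    have h5 : ((d.T i : ℤ) - 1) * (k : ℤ) = ∑ l, ((d.T i : ℤ) - 1) * d.m l := by
      rw [← mul_sum, hk]; push_cast; rfl
    rw [h5]
    exact sum_le_sum (fun l _ => hi l)
  refine ⟨i, w, hwA.1, ?_⟩
  obtain ⟨h1, hh1⟩ : ∃ h1, S1.card = h1 + 2 := ⟨S1.card - 2, by omega⟩
  obtain ⟨K, hKK⟩ : ∃ K, k = K + d.m i := ⟨k - d.m i, by omega⟩
  obtain ⟨m', hm'⟩ : ∃ m', d.m i = m' + 2 := ⟨d.m i - 2, by omega⟩
  set N2 := ∑ y ∈ S2, d.n i y with hN2d
  set c2 := S2.card with hc2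
  set g := d.g w with hgd
  set om := (d.Om w).card with homd
  have hgK : 2 * (g + om) ≤ K + sg := by
    have : S1.card * (g + om) + 1 ≤ Fintype.card ι + sg := by omega
    omega
  have hgK' : (h1 + 2) * (g + om) + 1 ≤ Fintype.card ι + sg := by
    rw [hh1] at hgm; omega
  have e1 : h1 + 2 - 1 = h1 + 1 := by omega
  have e2 : k - d.m i = K := by omega
  rw [hh1, e1, e2] at hnn
  obtain ⟨q, hq⟩ : ∃ q, K + sg + 1 = q + g := ⟨K + sg + 1 - g, by omega⟩
  have e3 : K + sg + 1 - g = q := by omega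
  have e4 : 2 * K + 2 * sg + 1 - g = q + K + sg := by omega
  rw [e3, e4] at hnn
  set Dm : ℤ := ∑ l, ((d.T l : ℤ) - 1) with hDm
  -- Dm ≤ (T-1) + (T-1) K / m
  rw [hT, hh1, hKK, hm'] at hdem
  rw [hm'] at hN2 hKK
  by_contra hcon
  push Not at hcon
  push_cast at hdem
  zify at hnn hN2 hgK hgK' hq
  -- use lower bound on Dm
  have hDlow : ((h1 : ℤ) + 1) * q + (c2 * (q + K + sg) + N2) + 1 ≤ Dm + om := by linarith
  have hmul : (((h1 : ℤ) + 1) * q + (c2 * (q + K + sg) + N2) + 1 - om) * (m' + 2) ≤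
      Dm * (m' + 2) := mul_le_mul_of_nonneg_right (by linarith)
        (by have := Int.natCast_nonneg m'; linarith)
  have hfin := hmul.trans hdem
  have hq2 : (q : ℤ) = K + sg + 1 - g := by linarith
  rw [hq2] at hfin
  refine arith3 (h1 := (h1 : ℤ)) (K := (K : ℤ)) (sg := (sg : ℤ)) (g := (g : ℤ)) (om := (om : ℤ))
    (c2 := (c2 : ℤ)) (N2 := (N2 : ℤ)) (m' := (m' : ℤ)) (Int.natCast_nonneg _)
    (Int.natCast_nonneg _) (Int.natCast_nonneg _) (Int.natCast_nonneg _) (Int.natCast_nonneg _)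
    (Int.natCast_nonneg _) (Int.natCast_nonneg _) (Int.natCast_nonneg _) hgK hN2 ?_
  linarith

end CD

end Pool.Agent.H76B
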