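import Pool.Agent.H76B.Count

/-! The arithmetic of the count, the case `m i = 1`. -/

namespace Pool.Agent.H76B

open Finset

namespace CD

variable {ι V σ : Type*} [Fintype ι] [DecidableEq ι] [DecidableEq V] [Fintype σ] [DecidableEq σ]

/-- `m i = 1`, and all components with the same ratio have `m = 1` -/
theorem case4 (d : CD ι V σ) (i : ι) (hi : ∀ l, ((d.T l : ℤ) - 1) * d.m i ≤
    ((d.T i : ℤ) - 1) * d.m l) (hm1 : d.m i = 1)
    (htop : ∀ l, ((d.T l : ℤ) - 1) * d.m i = ((d.T i : ℤ) - 1) * d.m l → d.m l = 1)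
    (h2 : 2 ≤ (d.S i).card) : d.Goal := by
  classical
  -- e = T i - 1
  have hTi : d.T i = (d.S i).card := by
    have h3 := d.T_le i
    have h4 := d.card_le_T i
    rw [hm1, one_mul] at h3
    omega
  obtain ⟨e', he'⟩ : ∃ e', (d.S i).card = e' + 2 := ⟨(d.S i).card - 2, by omega⟩
  have hTe : (d.T i : ℤ) - 1 = e' + 1 := by
    rw [hTi, he']; push_cast; ring
  rw [hm1] at hi
  simp only [Nat.cast_one, mul_one] at hi
  rw [hTe] at hi
  set TOP : Finset ι := univ.filter (fun l => (d.T l : ℤ) - 1 = (e' + 1) * d.m l) with hTOP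
  have hTOPm : ∀ l, l ∈ TOP ↔ (d.T l : ℤ) - 1 = (e' + 1) * d.m l := by
    intro l; rw [hTOP, mem_filter]; simp
  have hTOP1 : ∀ l ∈ TOP, d.m l = 1 ∧ (d.S l).card = e' + 2 := by
    intro l hl
    have h3 := (hTOPm l).1 hl
    have h4 : d.m l = 1 := by
      apply htop
      rw [hm1, hTe]
      simpa using h3
    refine ⟨h4, ?_⟩
    have h5 := d.T_le l
    have h6 := d.card_le_T l
    rw [h4] at h3 h5
    push_cast at h3
    have h7 : d.T l = (d.S l).card := by omega
    have h8 : (d.T l : ℤ) = e' + 2 := by linarith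
    have h9 : d.T l = e' + 2 := by exact_mod_cast h8
    omega
  have hiTOP : i ∈ TOP := by
    rw [hTOPm, hm1, hTe]; push_cast; ring
  set k := ∑ j, d.m j with hk
  set sg := Fintype.card σ with hsg
  have hk1 : 1 ≤ k := by
    have := single_le_sum (f := fun j => d.m j) (fun _ _ => Nat.zero_le _) (mem_univ i)
    have h1 := d.hm i
    omega
  have htk := d.card_le_sum_m
  rw [← hk] at htk
  -- links in TOP components
  have hlink : ∀ l ∈ TOP, ∀ y ∈ d.A l, 1 ≤ d.n l y → ∀ w ∈ d.A l, y ≠ w →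
      k + sg ≤ d.L l w y ∧ k + sg ≤ d.L l y w := by
    intro l hl y hy hny w hw hyw
    have h3 := d.F1 l y hy w hw hyw hny
    rw [← hk, ← hsg, (hTOP1 l hl).1] at h3
    constructor <;> omega
  -- the demand
  have hsumle : ∑ l, ((d.T l : ℤ) - 1) ≤ (e' + 1) * k := by
    have h3 : ∑ l, ((d.T l : ℤ) - 1) ≤ ∑ l, (((e' : ℤ) + 1) * d.m l) :=
      sum_le_sum (fun l _ => by have := hi l; linarith)
    rw [← mul_sum] at h3
    have h4 : ((k : ℕ) : ℤ) = ∑ l, (d.m l : ℤ) := by rw [hk]; push_cast; rfl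
    rw [h4]
    exact h3
  by_cases hA1 : ∃ l ∈ TOP, ∃ u ∈ d.A l, d.n l u = 0
  · -- (A1)
    obtain ⟨l, hl, u, hu, hnu⟩ := hA1
    have huS : u ∉ d.S l := by
      intro h
      have := (d.mem_S.1 h).2
      omega
    set W := insert u (d.S l) with hW
    have hWA : W ⊆ d.A l := by
      intro z hz
      rcases mem_insert.1 hz with rfl | hz
      · exact hu
      · exact (d.mem_S.1 hz).1
    have hWcard : W.card = e' + 3 := by
      rw [hW, card_insert_of_notMem huS, (hTOP1 l hl).2]
    have hWp : ∀ y ∈ W, ∀ z ∈ W, y ≠ z → 1 ≤ d.n l y ∨ 1 ≤ d.n l z := by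
      intro y hy z hz hyz
      rcases mem_insert.1 hy with rfl | hy
      · rcases mem_insert.1 hz with rfl | hz
        · exact absurd rfl hyz
        · exact Or.inr (d.mem_S.1 hz).2
      · exact Or.inl (d.mem_S.1 hy).2
    obtain ⟨w, hwW, hwmin⟩ := exists_min_image W (fun y => d.g y + (d.Om y).card)
      (card_pos.1 (by omega))
    have hg := d.g2 l W hWA hWp
    have hgm : W.card * (d.g w + (d.Om w).card) ≤ ∑ y ∈ W, (d.g y + (d.Om y).card) := by
      have := card_nsmul_le_sum W (fun y => d.g y + (d.Om y).card) (d.g w + (d.Om w).card)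
        (fun y hy => hwmin y hy)
      rwa [smul_eq_mul] at this
    rw [hWcard] at hgm
    have hgw : (e' + 3) * (d.g w + (d.Om w).card) ≤ k + sg := by
      have := hgm.trans hg
      omega
    have hgw1 : d.g w ≤ k + sg := by
      have : d.g w + (d.Om w).card ≤ (e' + 3) * (d.g w + (d.Om w).card) :=
        Nat.le_mul_of_pos_left _ (by omega)
      omega
    have hlk : ∀ y ∈ W, ∀ z ∈ W, z ≠ y → k + sg ≤ d.L l z y := by
      intro y hy z hz hzy
      rcases hWp y hy z hz (fun h => hzy h.symm) with h | h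
      · exact (hlink l hl y (hWA hy) h z (hWA hz) (fun h => hzy h.symm)).1
      · exact (hlink l hl z (hWA hz) h y (hWA hy) hzy).2
    have hsup := d.sup l w (hWA hwW) 0 (Nat.zero_le _) l (by rw [d.vt0]; exact hWA hwW) W hWA
      (by rw [d.vt0]; exact hwW) hWp (fun _ => k + sg - d.g w) (by
        intro y hy hyw
        rw [d.vt0] at hyw ⊢
        have := hlk y hy w hwW (fun h => hyw h.symm)
        omega) (by
        intro y hy hyw z hz hzy
        have := hlk y hy z hz hzy
        omega)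
    rw [d.vt0, sum_const, card_erase_of_mem hwW, hWcard, smul_eq_mul] at hsup
    refine ⟨l, w, hWA hwW, ?_⟩
    have e1 : e' + 3 - 1 = e' + 2 := by omega
    rw [e1] at hsup
    obtain ⟨q, hq⟩ : ∃ q, k + sg = q + d.g w := ⟨k + sg - d.g w, by omega⟩
    have e2 : k + sg - d.g w = q := by omega
    rw [e2] at hsup
    zify at hsup hgw hq
    have hom0 : (0 : ℤ) ≤ (d.Om w).card := Int.natCast_nonneg _
    have hg0 : (0 : ℤ) ≤ d.g w := Int.natCast_nonneg _
    have hq2 : (q : ℤ) = k + sg - d.g w := by linarith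
    rw [hq2] at hsup
    have hsg0 : (0 : ℤ) ≤ sg := Int.natCast_nonneg _
    have hk0 : (0 : ℤ) ≤ k := Int.natCast_nonneg _
    have he0 : (0 : ℤ) ≤ e' := Int.natCast_nonneg _
    have h5 : (0 : ℤ) ≤ (e' : ℤ) * sg := mul_nonneg he0 hsg0
    have h6 : (0 : ℤ) ≤ (e' : ℤ) * (d.Om w).card := mul_nonneg he0 hom0
    nlinarith
  · -- (A2)
    push Not at hA1
    have hAS : ∀ l ∈ TOP, ∀ u ∈ d.A l, u ∈ d.S l := by
      intro l hl u hu
      exact d.mem_S.2 ⟨hu, by have := hA1 l hl u hu; omega⟩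
    -- the last position of a TOP hub
    have hpos : ∀ w, ∃ a, w ∈ d.S i → a ≤ d.g w ∧ (∃ j ∈ TOP, d.vt w a ∈ d.A j) ∧
        ∀ j, a < j → j ≤ d.g w → ∀ l ∈ TOP, d.lab w j ≠ Sum.inl l := by
      intro w
      by_cases hw : w ∈ d.S i
      · set P : Finset ℕ := (range (d.g w + 1)).filter
          (fun a => ∃ j ∈ TOP, d.vt w a ∈ d.A j) with hP
        have h0 : 0 ∈ P := by
          rw [hP, mem_filter, mem_range]
          exact ⟨by omega, i, hiTOP, by rw [d.vt0]; exact (d.mem_S.1 hw).1⟩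
        obtain ⟨a, ha, hmax⟩ := exists_max_image P id ⟨0, h0⟩
        rw [hP, mem_filter, mem_range] at ha
        refine ⟨a, fun _ => ⟨by omega, ha.2, ?_⟩⟩
        intro j hj1 hj2 l hl hlab
        have hv := d.lab_hub i w (d.mem_S.1 hw).1 j (by omega) hj2 l hlab
        have : j ∈ P := by
          rw [hP, mem_filter, mem_range]
          exact ⟨by omega, l, hl, hv⟩
        have h7 := hmax j this
        simp only [id] at h7
        omega
      · exact ⟨0, fun h => absurd h hw⟩
    choose a ha using hpos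
    by_contra hcon
    unfold Goal at hcon
    push Not at hcon
    set Dl : ℤ := (e' + 1) * k - ∑ l, ((d.T l : ℤ) - 1) with hDl
    -- Dl ≥ number of comps not in TOP
    have hDl1 : ((univ \ TOP).card : ℤ) ≤ Dl := by
      have h4 : ((k : ℕ) : ℤ) = ∑ l, (d.m l : ℤ) := by rw [hk]; push_cast; rfl
      have h5 : Dl = ∑ l, (((e' : ℤ) + 1) * d.m l - ((d.T l : ℤ) - 1)) := by
        have h5a : ∑ l, (((e' : ℤ) + 1) * d.m l - ((d.T l : ℤ) - 1)) =
            ∑ l, (((e' : ℤ) + 1) * d.m l) - ∑ l, ((d.T l : ℤ) - 1) := by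
          rw [← sum_sub_distrib]
        rw [h5a, ← mul_sum, hDl, h4]
      rw [h5]
      have h6 : ∑ l ∈ univ \ TOP, (1 : ℤ) ≤
          ∑ l ∈ univ \ TOP, (((e' : ℤ) + 1) * d.m l - ((d.T l : ℤ) - 1)) := by
        apply sum_le_sum
        intro l hl
        have h7 : l ∉ TOP := (mem_sdiff.1 hl).2
        rw [hTOPm] at h7
        have h8 := hi l
        have h9 : (d.T l : ℤ) - 1 < (e' + 1) * d.m l := lt_of_le_of_ne (by linarith) h7
        linarith
      have h10 : ∑ l ∈ univ \ TOP, (((e' : ℤ) + 1) * d.m l - ((d.T l : ℤ) - 1)) ≤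
          ∑ l, (((e' : ℤ) + 1) * d.m l - ((d.T l : ℤ) - 1)) := by
        apply sum_le_sum_of_subset_of_nonneg (subset_univ _)
        intro l _ _
        have h8 := hi l
        linarith
      simp only [sum_const, nsmul_eq_mul, mul_one] at h6
      exact h6.trans h10
    -- the sum of x_w + om_w
    set x : V → ℕ := fun w => d.g w - a w with hx
    have hsum := d.gg i (d.S i) (filter_subset _ _)
      (fun y hy z _ _ => Or.inl (d.mem_S.1 hy).2) x (fun w hw => Nat.sub_le _ _)
      (univ \ TOP.image Sum.inl) (by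
        intro w hw j hj1 hj2
        rw [mem_sdiff]
        refine ⟨mem_univ _, fun h => ?_⟩
        obtain ⟨l, hl, hll⟩ := mem_image.1 h
        have h3 := ha w hw
        simp only [hx] at hj1
        exact h3.2.2 j (by omega) hj2 l hl hll.symm) (by
        intro w hw j hj
        rw [mem_sdiff]
        refine ⟨mem_univ _, fun h => ?_⟩
        obtain ⟨l, hl, hll⟩ := mem_image.1 h
        have h3 : l = j := Sum.inl_injective hll
        subst h3
        obtain ⟨u, hu, hnu⟩ := d.om_weak i w (d.mem_S.1 hw).1 l hj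
        exact hA1 l hl u hu hnu)
    have hTgc : ((univ \ TOP.image Sum.inl : Finset (ι ⊕ σ)).card : ℤ) =
        (univ \ TOP).card + sg := by
      have h3 : (TOP.image (Sum.inl : ι → ι ⊕ σ)).card = TOP.card :=
        card_image_of_injective _ Sum.inl_injective
      have h4 := card_sdiff_add_card_eq_card (subset_univ (TOP.image (Sum.inl : ι → ι ⊕ σ)))
      have h5 := card_sdiff_add_card_eq_card (subset_univ TOP)
      rw [card_univ, Fintype.card_sum] at h4
      rw [card_univ] at h5
      rw [h3] at h4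
      have : (univ \ TOP.image Sum.inl : Finset (ι ⊕ σ)).card = (univ \ TOP).card + sg := by
        omega
      exact_mod_cast this
    -- every w is bad
    have hbad : ∀ w ∈ d.S i, ((e' : ℤ) + 1) * sg + Dl + 1 ≤ (e' + 1) * x w + (d.Om w).card := by
      intro w hw
      obtain ⟨ha1, ⟨j, hj, hvj⟩, _⟩ := ha w hw
      have hvS := hAS j hj _ hvj
      have hgi := d.g1 i {w} (by intro z hz; rw [mem_singleton] at hz; rw [hz]; exact hw)
      rw [sum_singleton] at hgi
      have hsup := d.sup i w (d.mem_S.1 hw).1 (a w) ha1 j hvj (d.S j) (filter_subset _ _) hvS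
        (fun y hy z _ _ => Or.inl (d.mem_S.1 hy).2) (fun _ => k + sg - x w) (by
          intro y hy hyw
          have hyA := d.mem_S.1 hy
          have := (hlink j hj y hyA.1 hyA.2 _ hvj hyw).1
          simp only [hx]
          omega) (by
          intro y hy hyw z hz hzy
          have hyA := d.mem_S.1 hy
          have hzA := d.mem_S.1 hz
          have := (hlink j hj y hyA.1 hyA.2 z hzA.1 (fun h => hzy h.symm)).1
          omega)
      rw [sum_const, card_erase_of_mem hvS, (hTOP1 j hj).2, smul_eq_mul] at hsup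
      have e1 : e' + 2 - 1 = e' + 1 := by omega
      rw [e1] at hsup
      have hc := hcon i w (d.mem_S.1 hw).1
      obtain ⟨q, hq⟩ : ∃ q, k + sg = q + x w := ⟨k + sg - x w, by simp only [hx]; omega⟩
      have e2 : k + sg - x w = q := by omega
      rw [e2] at hsup
      zify at hsup hq
      have hq2 : (q : ℤ) = k + sg - x w := by linarith
      rw [hq2] at hsup
      have h7 : ∑ l, ((d.T l : ℤ) - 1) = (e' + 1) * k - Dl := by rw [hDl]; ring
      rw [h7] at hc
      nlinarith
    have hsumbad : ((e' : ℤ) + 2) * (((e' : ℤ) + 1) * sg + Dl + 1) ≤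
        ∑ w ∈ d.S i, (((e' : ℤ) + 1) * x w + (d.Om w).card) := by
      have := card_nsmul_le_sum (d.S i) (fun w => ((e' : ℤ) + 1) * x w + (d.Om w).card)
        (((e' : ℤ) + 1) * sg + Dl + 1) (fun w hw => hbad w hw)
      rw [he', nsmul_eq_mul] at this
      push_cast at this
      exact this
    have hsumle2 : ∑ w ∈ d.S i, (((e' : ℤ) + 1) * x w + (d.Om w).card) ≤
        (e' + 1) * ∑ w ∈ d.S i, ((x w : ℤ) + (d.Om w).card) := by
      rw [mul_sum]
      apply sum_le_sum
      intro w _
      have h8 : (0 : ℤ) ≤ e' * (d.Om w).card :=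
        mul_nonneg (Int.natCast_nonneg _) (Int.natCast_nonneg _)
      nlinarith
    have hsum2 : (∑ w ∈ d.S i, ((x w : ℤ) + (d.Om w).card)) ≤ Dl + sg := by
      have h9 : ((∑ w ∈ d.S i, (x w + (d.Om w).card) : ℕ) : ℤ) ≤
          ((univ \ TOP.image Sum.inl : Finset (ι ⊕ σ)).card : ℤ) := by exact_mod_cast hsum
      rw [hTgc] at h9
      push_cast at h9
      linarith
    have hfin : ((e' : ℤ) + 2) * (((e' : ℤ) + 1) * sg + Dl + 1) ≤ (e' + 1) * (Dl + sg) :=
      (hsumbad.trans hsumle2).trans (mul_le_mul_of_nonneg_left hsum2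
        (by have := Int.natCast_nonneg e'; linarith))
    have hDl0 : (0 : ℤ) ≤ Dl := le_trans (Int.natCast_nonneg _) hDl1
    have hsg0 : (0 : ℤ) ≤ sg := Int.natCast_nonneg _
    have he0 : (0 : ℤ) ≤ e' := Int.natCast_nonneg _
    have h11 : (0 : ℤ) ≤ (e' : ℤ) * sg := mul_nonneg he0 hsg0
    have h12 : (0 : ℤ) ≤ (e' : ℤ) * (e' * sg) := mul_nonneg he0 h11
    have h13 : (0 : ℤ) ≤ (e' : ℤ) * Dl := mul_nonneg he0 hDl0
    nlinarith

end CD

end Pool.Agent.H76B
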