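import Pool.Agent.H76B.Count3
import Pool.Agent.H76B.Count4

/-! The arithmetic of the count: main statement. -/

namespace Pool.Agent.H76B

open Finset

namespace CD

variable {ι V σ : Type*} [Fintype ι] [DecidableEq ι] [DecidableEq V] [Fintype σ] [DecidableEq σ]

/-- Some hub `w` has a run whose end has enough non-neighbours:
`∑ (T l - 1) + om w ≤ nn w`. -/
theorem main [Nonempty ι] (d : CD ι V σ) :
    ∃ l, ∃ w ∈ d.A l, (∑ l, ((d.T l : ℤ) - 1)) + (d.Om w).card ≤ d.nn w := by
  classical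
  -- a component with maximal ratio
  obtain ⟨i0, -, hi0⟩ := exists_max_image (univ : Finset ι)
    (fun l => (((d.T l : ℤ) - 1 : ℤ) : ℚ) / (d.m l : ℚ)) univ_nonempty
  have key : ∀ i : ι, (((d.T i : ℤ) - 1 : ℤ) : ℚ) / (d.m i : ℚ) =
      (((d.T i0 : ℤ) - 1 : ℤ) : ℚ) / (d.m i0 : ℚ) →
      ∀ l, ((d.T l : ℤ) - 1) * d.m i ≤ ((d.T i : ℤ) - 1) * d.m l := by
    intro i hi l
    have h1 := hi0 l (mem_univ _)
    rw [← hi] at h1
    have hl : (0 : ℚ) < (d.m l : ℚ) := by have := d.hm l; exact_mod_cast this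
    have hii : (0 : ℚ) < (d.m i : ℚ) := by have := d.hm i; exact_mod_cast this
    rw [div_le_div_iff₀ hl hii] at h1
    exact_mod_cast h1
  have small : ∀ i : ι, (∀ l, ((d.T l : ℤ) - 1) * d.m i ≤ ((d.T i : ℤ) - 1) * d.m l) →
      (d.S i).card < 2 → d.Goal := by
    intro i hi h
    rcases Nat.lt_or_ge (d.S i).card 1 with h0 | h1
    · exact d.case0 i hi (by omega)
    · exact d.case1 i hi (by omega)
  by_cases hex : ∃ i, (((d.T i : ℤ) - 1 : ℤ) : ℚ) / (d.m i : ℚ) =
      (((d.T i0 : ℤ) - 1 : ℤ) : ℚ) / (d.m i0 : ℚ) ∧ 2 ≤ d.m i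
  · obtain ⟨i, hi, hm2⟩ := hex
    have hi' := key i hi
    rcases Nat.lt_or_ge (d.S i).card 2 with h | h
    · exact small i hi' h
    · rcases Nat.lt_or_ge ((d.S i).filter (fun y => d.n i y = 1)).card 2 with h1 | h1
      · refine d.case2 i hi' h ?_
        intro y hy z hz hyz
        have hy1 := (d.mem_S.1 hy).2
        have hz1 := (d.mem_S.1 hz).2
        by_contra hcon
        have hy2 : d.n i y = 1 := by omega
        have hz2 : d.n i z = 1 := by omega
        have h3 : 1 < ((d.S i).filter (fun y => d.n i y = 1)).card :=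
          one_lt_card.2 ⟨y, mem_filter.2 ⟨hy, hy2⟩, z, mem_filter.2 ⟨hz, hz2⟩, hyz⟩
        omega
      · exact d.case3 i hi' hm2 h1
  · push Not at hex
    have hi' := key i0 rfl
    have hm1 : d.m i0 = 1 := by
      have h1 := hex i0 rfl
      have h2 := d.hm i0
      omega
    rcases Nat.lt_or_ge (d.S i0).card 2 with h | h
    · exact small i0 hi' h
    · refine d.case4 i0 hi' hm1 ?_ h
      intro l hl
      have h1 : (((d.T l : ℤ) - 1 : ℤ) : ℚ) / (d.m l : ℚ) =
          (((d.T i0 : ℤ) - 1 : ℤ) : ℚ) / (d.m i0 : ℚ) := by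
        have hl0 : (d.m l : ℚ) ≠ 0 := by have := d.hm l; positivity
        have hi00 : (d.m i0 : ℚ) ≠ 0 := by have := d.hm i0; positivity
        rw [div_eq_div_iff hl0 hi00]
        exact_mod_cast hl
      have h2 := hex l h1
      have h3 := d.hm l
      omega

end CD

end Pool.Agent.H76B
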