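import Pool.Agent.H76B.Low

/-! Block-free form of the good blocks: two vertices joined by a simple path through a good
vertex are joined by a long path. -/

namespace Pool.Agent.H76B

open List Pool.Agent.TF82 Pool.Agent.TFC Pool.Agent.TFG

universe u

set_option linter.unusedSectionVars false
set_option linter.unusedVariables false

variable {V : Type u} [DecidableEq V]

/-- `z` is a cut vertex of `G[U]` -/
def CutV (G : SimpleGraph V) (U : Finset V) (z : V) : Prop :=
  ∃ a ∈ U, ∃ c ∈ U, a ≠ z ∧ c ≠ z ∧ ¬ Rc G (fun w => w ∈ U ∧ w ≠ z) a c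

/-- neither optional nor a cut vertex -/
def Good (G : SimpleGraph V) (U W : Finset V) (v : V) : Prop := v ∈ U ∧ v ∉ W ∧ ¬ CutV G U v

/-- `x ≠ x'` are joined by a simple path of `G[U]` through a good vertex -/
def Far (G : SimpleGraph V) (U W : Finset V) (x x' : V) : Prop :=
  x ≠ x' ∧ ∃ Q : List V, Seg G Q x x' ∧ Q.Nodup ∧ (∀ z ∈ Q, z ∈ U) ∧ ∃ v ∈ Q, Good G U W v

theorem _root_.Pool.Agent.TFC.Seg.split' {G : SimpleGraph V} {A B : List V} {r s t : V} (h : Seg G (A ++ r :: B) s t) :
    Seg G (A ++ [r]) s r ∧ Seg G (r :: B) r t := by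
  obtain ⟨hc, hh, hl⟩ := h
  rw [List.isChain_append] at hc
  obtain ⟨h1, h2, h3⟩ := hc
  refine ⟨⟨?_, ?_, by simp⟩, ⟨h2, by simp, ?_⟩⟩
  · rw [List.isChain_append]
    refine ⟨h1, by simp, ?_⟩
    intro a ha b hb
    simp at hb
    subst hb
    exact h3 a ha _ (by simp)
  · rcases A with _ | ⟨a, A⟩
    · simpa using hh
    · simpa using hh
  · rw [List.getLast?_append] at hl
    rcases B with _ | ⟨b, B⟩
    · simpa using hl
    · simpa [List.getLast?_cons_cons] using hl

theorem _root_.Pool.Agent.TFC.Seg.glue' {G : SimpleGraph V} {A B : List V} {r s t : V} (h1 : Seg G (A ++ [r]) s r)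
    (h2 : Seg G (r :: B) r t) : Seg G (A ++ r :: B) s t := by
  obtain ⟨c1, d1, l1⟩ := h1
  obtain ⟨c2, d2, l2⟩ := h2
  refine ⟨?_, ?_, ?_⟩
  · rw [List.isChain_append] at c1 ⊢
    refine ⟨c1.1, c2, ?_⟩
    intro a ha b hb
    simp at hb
    subst hb
    exact c1.2.2 a ha _ (by simp)
  · rcases A with _ | ⟨a, A⟩
    · simpa using d1
    · simpa using d1
  · rw [List.getLast?_append, l2]
    rfl

theorem _root_.Pool.Agent.TFC.Seg.snoc' {G : SimpleGraph V} {R : List V} {a r : V} (h : Seg G R a r) :
    ∃ R0, R = R0 ++ [r] := by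
  have hne : R ≠ [] := by
    rintro rfl
    have := h.hd
    simp at this
  refine ⟨R.dropLast, ?_⟩
  have h1 := h.lt
  rw [List.getLast?_eq_getLast_of_ne_nil hne] at h1
  have h2 : R.getLast hne = r := by simpa using h1
  rw [← h2, List.dropLast_append_getLast]

theorem _root_.Pool.Agent.TFC.Seg.cons'' {G : SimpleGraph V} {R : List V} {a r : V} (h : Seg G R a r) :
    ∃ R1, R = a :: R1 := by
  rcases R with _ | ⟨b, R⟩
  · have := h.hd
    simp at this
  · have := h.hd
    simp at this
    exact ⟨R, by rw [this]⟩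

theorem seg_rc {G : SimpleGraph V} {S : V → Prop} : ∀ {Q : List V} {a t : V}, Seg G Q a t →
    (∀ z ∈ Q, S z) → Rc G S a t := by
  intro Q
  induction Q with
  | nil =>
    intro a t h
    have := h.hd
    simp at this
  | cons q Q ih =>
    intro a t h hS
    have h1 := h.hd
    simp at h1
    subst h1
    rcases Q with _ | ⟨q2, Q⟩
    · have h2 := h.lt
      simp at h2
      subst h2
      exact Relation.ReflTransGen.refl
    · have hc := h.ch
      rw [List.isChain_cons_cons] at hc
      have hseg : Seg G (q2 :: Q) q2 t := by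
        refine ⟨hc.2, by simp, ?_⟩
        have := h.lt
        rwa [List.getLast?_cons_cons] at this
      exact Relation.ReflTransGen.head ⟨hc.1, hS q2 (by simp)⟩
        (ih hseg (fun z hz => hS z (List.mem_cons_of_mem _ hz)))

theorem _root_.Pool.Agent.TFG.Rc.symm' {G : SimpleGraph V} {S : V → Prop} {a b : V} (h : Rc G S a b) (ha : S a) :
    Rc G S b a := by
  obtain ⟨Q, hQ, _, hS⟩ := h.path ha
  exact seg_rc hQ.rev (fun z hz => (hS z (List.mem_reverse.1 hz)).1)

theorem first_hit {G : SimpleGraph V} {S T : V → Prop} {a x : V} (h : Rc G S a x) (hx : T x) :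
    S a → ∃ (R : List V) (r : V), Seg G R a r ∧ R.Nodup ∧ (∀ z ∈ R, S z) ∧ T r ∧
      ∀ z ∈ R, T z → z = r := by
  classical
  refine Relation.ReflTransGen.head_induction_on h ?_ ?_
  · intro hS
    exact ⟨[x], x, ⟨by simp, by simp, by simp⟩, by simp, by simpa using hS, hx, by simp⟩
  · intro a a' haa' ha' ih hS
    by_cases hT : T a
    · exact ⟨[a], a, ⟨by simp, by simp, by simp⟩, by simp, by simpa using hS, hT, by simp⟩
    obtain ⟨R, r, hR, hn, hRS, hr, hRT⟩ := ih haa'.2
    by_cases ha : a ∈ R
    · obtain ⟨s1, s2, rfl⟩ := List.append_of_mem ha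
      refine ⟨a :: s2, r, hR.split'.2, (List.nodup_append.1 hn).2.1, ?_, hr, ?_⟩
      · intro z hz
        exact hRS z (List.mem_append_right _ hz)
      · intro z hz
        exact hRT z (List.mem_append_right _ hz)
    · obtain ⟨R1, rfl⟩ := hR.cons''
      refine ⟨a :: a' :: R1, r, ⟨?_, by simp, ?_⟩, List.nodup_cons.2 ⟨ha, hn⟩, ?_, hr, ?_⟩
      · rw [List.isChain_cons_cons]
        exact ⟨haa'.1, hR.ch⟩
      · rw [List.getLast?_cons_cons]
        exact hR.lt
      · intro z hz
        rcases List.mem_cons.1 hz with rfl | hz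
        · exact hS
        · exact hRS z hz
      · intro z hz hTz
        rcases List.mem_cons.1 hz with rfl | hz
        · exact absurd hTz hT
        · exact hRT z hz hTz

theorem Far.symm {G : SimpleGraph V} {U W : Finset V} {x x' : V} (h : Far G U W x x') :
    Far G U W x' x := by
  obtain ⟨hne, Q, h1, h2, h3, v, hv, hg⟩ := h
  exact ⟨hne.symm, Q.reverse, h1.rev, List.nodup_reverse.2 h2,
    fun z hz => h3 z (List.mem_reverse.1 hz), v, List.mem_reverse.2 hv, hg⟩

/-- item (2): `¬ Far` is transitive -/
theorem Far.tri {G : SimpleGraph V} {U W : Finset V} {x x' y : V} (h : Far G U W x x')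
    (hconn : ∀ a ∈ U, ∀ c ∈ U, Rc G (fun w => w ∈ U) a c) (hy : y ∈ U) :
    Far G U W x y ∨ Far G U W y x' := by
  obtain ⟨hne, Q, h1, h2, h3, v, hv, hg⟩ := h
  by_cases hyQ : y ∈ Q
  · obtain ⟨A, B, rfl⟩ := List.append_of_mem hyQ
    have hs := h1.split'
    by_cases hvA : v ∈ A
    · left
      refine ⟨?_, A ++ [y], hs.1, ?_, ?_, v, by simp [hvA], hg⟩
      · rintro rfl
        obtain ⟨A1, hA1⟩ := hs.1.cons''
        rcases A with _ | ⟨a, A⟩
        · simp at hvA
        · simp at hA1
          rw [hA1.1] at h2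
          simp at h2
      · have := h2
        rw [List.nodup_append] at this ⊢
        refine ⟨this.1, by simp, ?_⟩
        intro a ha b hb
        exact this.2.2 a ha b (by simp at hb; simp [hb])
      · intro z hz
        apply h3
        simp at hz ⊢
        tauto
    · have hvB : v ∈ y :: B := by
        rcases List.mem_append.1 hv with h | h
        · exact absurd h hvA
        · exact h
      by_cases hyx' : y = x'
      · left
        subst hyx'
        exact ⟨hne, A ++ y :: B, h1, h2, h3, v, hv, hg⟩
      · right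
        exact ⟨hyx', y :: B, hs.2, (List.nodup_append.1 h2).2.1,
          fun z hz => h3 z (List.mem_append_right _ hz), v, hvB, hg⟩
  · -- connect y to Q
    have hxQ : x ∈ Q := by
      obtain ⟨Q1, rfl⟩ := h1.cons''
      simp
    obtain ⟨R, r, hR, hRn, hRU, hrQ, hRT⟩ := first_hit (T := fun z => z ∈ Q)
      (hconn y hy x (h3 x hxQ)) hxQ hy
    obtain ⟨A, B, rfl⟩ := List.append_of_mem hrQ
    have hs := h1.split'
    obtain ⟨R0, rfl⟩ := hR.snoc'
    have hdis : ∀ z ∈ R0, z ∉ A ++ r :: B := by
      intro z hz hz2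
      have h5 := hRT z (List.mem_append_left _ hz) hz2
      rw [h5] at hz
      exact (List.nodup_append.1 hRn).2.2 r hz r (by simp) rfl
    by_cases hvA : v ∈ A
    · left
      refine ⟨?_, A ++ r :: R0.reverse, hs.1.glue' ?_, ?_, ?_, v, by simp [hvA], hg⟩
      · rintro rfl
        exact hyQ hxQ
      · have := hR.rev
        simpa using this
      · rw [List.nodup_append] at h2 ⊢
        refine ⟨h2.1, ?_, ?_⟩
        · rw [List.nodup_cons]
          constructor
          · intro h
            exact hdis r (List.mem_reverse.1 h) (by simp)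
          · exact List.nodup_reverse.2 (List.nodup_append.1 hRn).1
        · intro a ha b hb
          rcases List.mem_cons.1 hb with rfl | hb
          · exact h2.2.2 a ha _ (by simp)
          · rintro rfl
            exact hdis a (List.mem_reverse.1 hb) (by simp [ha])
      · intro z hz
        rcases List.mem_append.1 hz with hz | hz
        · exact h3 z (by simp [hz])
        · rcases List.mem_cons.1 hz with rfl | hz
          · exact h3 _ (by simp)
          · exact hRU z (by simp [List.mem_reverse.1 hz])
    · right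
      have hvB : v ∈ r :: B := by
        rcases List.mem_append.1 hv with h | h
        · exact absurd h hvA
        · exact h
      refine ⟨?_, R0 ++ r :: B, hR.glue' hs.2, ?_, ?_, v, by simp; simp at hvB; tauto, hg⟩
      · rintro rfl
        apply hyQ
        have := h1.lt
        exact List.mem_of_getLast? this
      · rw [List.nodup_append]
        refine ⟨(List.nodup_append.1 hRn).1, (List.nodup_append.1 h2).2.1, ?_⟩
        intro a ha b hb
        rintro rfl
        exact hdis a ha (by simp at hb ⊢; tauto)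
      · intro z hz
        rcases List.mem_append.1 hz with hz | hz
        · exact hRU z (by simp [hz])
        · exact h3 z (List.mem_append_right _ hz)

/-- neighbours of a good vertex of a simple `x`-`x'` path lie on simple `x`-`x'` paths -/
theorem nbr_on_path {G : SimpleGraph V} {U : Finset V} {x x' : V} (hne : x ≠ x') {Q : List V}
    (h1 : Seg G Q x x') (h2 : Q.Nodup) (h3 : ∀ z ∈ Q, z ∈ U) {u : V} (hu : u ∈ Q)
    (hcut : ¬ CutV G U u) {w : V} (hw : w ∈ U) (huw : G.Adj u w) :
    ∃ Q' : List V, Seg G Q' x x' ∧ Q'.Nodup ∧ (∀ z ∈ Q', z ∈ U) ∧ w ∈ Q' := by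
  by_cases hwQ : w ∈ Q
  · exact ⟨Q, h1, h2, h3, hwQ⟩
  have hxQ : x ∈ Q := by
    obtain ⟨Q1, rfl⟩ := h1.cons''
    simp
  have hx'Q : x' ∈ Q := List.mem_of_getLast? h1.lt
  have hall : ∀ c ∈ U, c ≠ u → Rc G (fun z => z ∈ U ∧ z ≠ u) w c := by
    intro c hc hcu
    by_contra hcon
    exact hcut ⟨w, hw, c, hc, huw.ne', hcu, hcon⟩
  have hex : ∃ t ∈ Q, t ≠ u := by
    by_cases h : x = u
    · exact ⟨x', hx'Q, fun h' => hne (h.trans h'.symm)⟩
    · exact ⟨x, hxQ, h⟩
  obtain ⟨t, htQ, htu⟩ := hex
  obtain ⟨R, r, hR, hRn, hRU, hrQ, hRT⟩ := first_hit (T := fun z => z ∈ Q)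
    (hall t (h3 t htQ) htu) htQ ⟨hw, huw.ne'⟩
  have hru : r ≠ u := (hRU r (List.mem_of_getLast? hR.lt)).2
  obtain ⟨R0, rfl⟩ := hR.snoc'
  have hdis : ∀ z ∈ R0, z ∉ Q := by
    intro z hz hz2
    have h5 := hRT z (List.mem_append_left _ hz) hz2
    rw [h5] at hz
    exact (List.nodup_append.1 hRn).2.2 r hz r (by simp) rfl
  have hwR0 : w ∈ R0 := by
    obtain ⟨R1, hR1⟩ := hR.cons''
    rcases R0 with _ | ⟨r0, R0⟩
    · simp at hR1
      exact absurd (hR1.1 ▸ hrQ) hwQ
    · simp at hR1
      simp [hR1.1]
  obtain ⟨A, B, rfl⟩ := List.append_of_mem hu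
  have hsu := h1.split'
  have hr' : r ∈ A ∨ r ∈ B := by
    rcases List.mem_append.1 hrQ with h | h
    · exact Or.inl h
    · rcases List.mem_cons.1 h with h | h
      · exact absurd h hru
      · exact Or.inr h
  rcases hr' with hrA | hrB
  · -- x .. r, back along R to w, u .. x'
    obtain ⟨A1, A2, rfl⟩ := List.append_of_mem hrA
    have h1' : Seg G (A1 ++ r :: (A2 ++ u :: B)) x x' := by simpa using h1
    have hs := h1'.split'
    have hmid : Seg G (r :: R0.reverse) r w := by
      have := hR.rev
      simpa using this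
    have hleft := hs.1.glue' hmid
    have hfin := hleft.append hsu.2 huw.symm
    refine ⟨_, hfin, ?_, ?_, ?_⟩
    · rw [List.nodup_append]
      have h2' : (A1 ++ r :: (A2 ++ u :: B)).Nodup := by simpa using h2
      refine ⟨?_, (List.nodup_append.1 h2).2.1, ?_⟩
      · rw [List.nodup_append] at h2' ⊢
        refine ⟨h2'.1, ?_, ?_⟩
        · rw [List.nodup_cons]
          refine ⟨fun h => hdis r (List.mem_reverse.1 h) hrQ, List.nodup_reverse.2
            (List.nodup_append.1 hRn).1⟩
        · intro a ha b hb
          rcases List.mem_cons.1 hb with rfl | hb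
          · exact h2'.2.2 a ha _ (by simp)
          · rintro rfl
            exact hdis a (List.mem_reverse.1 hb) (by simp [ha])
      · intro a ha b hb
        rintro rfl
        rcases List.mem_append.1 ha with ha | ha
        · have := (List.nodup_append.1 h2).2.2 a (by simp [ha]) a hb
          exact this rfl
        · rcases List.mem_cons.1 ha with rfl | ha
          · have := (List.nodup_append.1 h2).2.2 a (by simp) a hb
            exact this rfl
          · exact hdis a (List.mem_reverse.1 ha) (List.mem_append_right _ hb)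
    · intro z hz
      rcases List.mem_append.1 hz with hz | hz
      · rcases List.mem_append.1 hz with hz | hz
        · exact h3 z (by simp [hz])
        · rcases List.mem_cons.1 hz with rfl | hz
          · exact h3 _ hrQ
          · exact (hRU z (by simp [List.mem_reverse.1 hz])).1
      · exact h3 z (List.mem_append_right _ hz)
    · simp [hwR0]
  · -- x .. u, w along R to r .. x'
    obtain ⟨B1, B2, rfl⟩ := List.append_of_mem hrB
    have h1' : Seg G ((A ++ u :: B1) ++ r :: B2) x x' := by simpa using h1
    have hs := h1'.split'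
    have hright := hR.glue' hs.2
    have hfin := hsu.1.append hright huw
    refine ⟨_, hfin, ?_, ?_, ?_⟩
    · have h2' : ((A ++ [u]) ++ (B1 ++ r :: B2)).Nodup := by simpa using h2
      have h2'' : ((A ++ u :: B1) ++ r :: B2).Nodup := by simpa using h2
      rw [List.nodup_append]
      refine ⟨(List.nodup_append.1 h2').1, ?_, ?_⟩
      · rw [List.nodup_append]
        refine ⟨(List.nodup_append.1 hRn).1, (List.nodup_append.1 h2'').2.1, ?_⟩
        intro a ha b hb
        rintro rfl
        exact hdis a ha (by simp at hb ⊢; tauto)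
      · intro a ha b hb
        rintro rfl
        rcases List.mem_append.1 hb with hb | hb
        · exact hdis a hb (by simp at ha ⊢; tauto)
        · exact (List.nodup_append.1 h2').2.2 a ha a (by simp at hb ⊢; tauto) rfl
    · intro z hz
      rcases List.mem_append.1 hz with hz | hz
      · exact h3 z (by simp at hz ⊢; tauto)
      · rcases List.mem_append.1 hz with hz | hz
        · exact (hRU z (by simp [hz])).1
        · exact h3 z (by simp at hz ⊢; tauto)
    · simp [hwR0]

end Pool.Agent.H76B
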