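import Pool.Agent.H76B.Link

/-! Good vertices have many good neighbours; far vertices are joined by long paths. -/

namespace Pool.Agent.H76B

open List Pool.Agent.TF82 Pool.Agent.TFC Pool.Agent.TFG

universe u

set_option linter.unusedSectionVars false
set_option linter.unusedVariables false

variable {V : Type u} [DecidableEq V]

/-- `d` is separated from `u` by `z` -/
def Beyond (G : SimpleGraph V) (U : Finset V) (u z d : V) : Prop :=
  d ∈ U ∧ d ≠ z ∧ ¬ Rc G (fun w => w ∈ U ∧ w ≠ z) d u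

theorem exists_beyond {G : SimpleGraph V} {U : Finset V} {u z : V} (hu : u ∈ U) (huz : u ≠ z)
    (hz : CutV G U z) : ∃ d, Beyond G U u z d := by
  obtain ⟨a, ha, c, hc, haz, hcz, hn⟩ := hz
  by_cases h1 : Rc G (fun w => w ∈ U ∧ w ≠ z) a u
  · by_cases h2 : Rc G (fun w => w ∈ U ∧ w ≠ z) c u
    · exact absurd (Relation.ReflTransGen.trans h1 (h2.symm' ⟨hc, hcz⟩)) hn
    · exact ⟨c, hc, hcz, h2⟩
  · exact ⟨a, ha, haz, h1⟩

theorem beyond_disj {G : SimpleGraph V} {U : Finset V}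
    (hconn : ∀ a ∈ U, ∀ c ∈ U, Rc G (fun w => w ∈ U) a c) {u z z' d : V} (hu : u ∈ U)
    (hz : z ∈ U) (hz' : z' ∈ U) (h1 : G.Adj u z) (h2 : G.Adj u z') (hne : z ≠ z')
    (hd : Beyond G U u z d) : Rc G (fun w => w ∈ U ∧ w ≠ z') d u := by
  obtain ⟨P, hP, hn, hPU⟩ := (hconn d hd.1 u hu).path hd.1
  have hzP : z ∈ P := by
    by_contra hcon
    apply hd.2.2
    exact seg_rc hP (fun w hw => ⟨(hPU w hw).1, fun h => hcon (h ▸ hw)⟩)
  obtain ⟨A, B, rfl⟩ := List.append_of_mem hzP
  by_cases hz'A : z' ∈ A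
  · exfalso
    obtain ⟨A1, A2, rfl⟩ := List.append_of_mem hz'A
    have hP' : Seg G (A1 ++ z' :: (A2 ++ z :: B)) d u := by simpa using hP
    have hn' : (A1 ++ z' :: (A2 ++ z :: B)).Nodup := by simpa using hn
    apply hd.2.2
    refine Relation.ReflTransGen.tail (seg_rc hP'.split'.1 ?_) ⟨h2.symm, hu, h1.ne⟩
    intro w hw
    refine ⟨(hPU w (by simp at hw ⊢; tauto)).1, ?_⟩
    rintro rfl
    rcases List.mem_append.1 hw with hw | hw
    · exact (List.nodup_append.1 hn').2.2 w hw w (by simp) rfl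
    · simp at hw
      exact hne hw
  · refine Relation.ReflTransGen.tail (seg_rc hP.split'.1 ?_) ⟨h1.symm, hu, h2.ne⟩
    intro w hw
    refine ⟨(hPU w (by simp at hw ⊢; tauto)).1, ?_⟩
    rintro rfl
    rcases List.mem_append.1 hw with hw | hw
    · exact hz'A hw
    · simp at hw
      exact hne hw.symm

/-- every vertex outside `W` has at least `b + 2` neighbours that are good -/
theorem good_deg {G : SimpleGraph V} [DecidableRel G.Adj] {U W : Finset V} {b : ℕ} (hW : W ⊆ U)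
    (hconn : ∀ a ∈ U, ∀ c ∈ U, Rc G (fun w => w ∈ U) a c)
    (hC : ∀ I : Finset V, I ⊆ U \ W → G.IsIndepSet (I : Set V) → ∀ v ∈ I,
      I.card + 1 + W.card + b ≤ dU G U v) {u : V} (hu : u ∈ U) (huW : u ∉ W) :
    ∃ N : Finset V, b + 2 ≤ N.card ∧ ∀ w ∈ N, G.Adj u w ∧ Good G U W w := by
  classical
  set N : Finset V := U.filter (fun w => G.Adj u w) with hN
  have hNm : ∀ w, w ∈ N ↔ w ∈ U ∧ G.Adj u w := by intro w; rw [hN, Finset.mem_filter]
  set NG : Finset V := N.filter (fun w => w ∉ W ∧ ¬ CutV G U w) with hNG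
  set C1 : Finset V := N.filter (fun w => w ∉ W ∧ CutV G U w) with hC1
  have hC1m : ∀ w, w ∈ C1 ↔ w ∈ N ∧ w ∉ W ∧ CutV G U w := by intro w; rw [hC1, Finset.mem_filter]
  have hex : ∀ z, ∃ d, z ∈ C1 → Beyond G U u z d := by
    intro z
    by_cases hz : z ∈ C1
    · have h1 := (hC1m z).1 hz
      obtain ⟨d, hd⟩ := exists_beyond hu ((hNm z).1 h1.1).2.ne h1.2.2
      exact ⟨d, fun _ => hd⟩
    · exact ⟨z, fun h => absurd h hz⟩
  choose g hg using hex
  have hadjz : ∀ z ∈ C1, z ∈ U ∧ G.Adj u z := fun z hz => (hNm z).1 ((hC1m z).1 hz).1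
  have hnadj : ∀ z ∈ C1, ¬ G.Adj u (g z) := by
    intro z hz hadj
    have hb := hg z hz
    exact hb.2.2 (Relation.ReflTransGen.single ⟨hadj.symm, hu, (hadjz z hz).2.ne⟩)
  have hnu : ∀ z ∈ C1, g z ≠ u := by
    intro z hz h
    have hb := hg z hz
    rw [h] at hb
    exact hb.2.2 Relation.ReflTransGen.refl
  have hdj : ∀ z ∈ C1, ∀ z' ∈ C1, z ≠ z' → Rc G (fun w => w ∈ U ∧ w ≠ z') (g z) u :=
    fun z hz z' hz' hne => beyond_disj hconn hu (hadjz z hz).1 (hadjz z' hz').1 (hadjz z hz).2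
      (hadjz z' hz').2 hne (hg z hz)
  have hinj : ∀ z ∈ C1, ∀ z' ∈ C1, g z = g z' → z = z' := by
    intro z hz z' hz' h
    by_contra hne
    have h1 := hdj z hz z' hz' hne
    rw [h] at h1
    exact (hg z' hz').2.2 h1
  have hnn : ∀ z ∈ C1, ∀ z' ∈ C1, z ≠ z' → ¬ G.Adj (g z) (g z') := by
    intro z hz z' hz' hne hadj
    have h1 := hdj z hz z' hz' hne
    -- g z ≠ z' since z' reaches u
    have h2 : g z ≠ z' := by
      intro h
      have hb := hg z hz
      apply hb.2.2
      rw [h]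
      exact Relation.ReflTransGen.single ⟨(hadjz z' hz').2.symm, hu, (hadjz z hz).2.ne⟩
    exact (hg z' hz').2.2 (Relation.ReflTransGen.head ⟨hadj.symm, (hg z hz).1, h2⟩ h1)
  set Ca : Finset V := C1.filter (fun z => g z ∉ W) with hCa
  set Cb : Finset V := C1.filter (fun z => g z ∈ W) with hCb
  have hCab : Ca.card + Cb.card = C1.card := by
    rw [hCa, hCb, add_comm]
    exact Finset.card_filter_add_card_filter_not (s := C1) (fun z => g z ∈ W)
  set J : Finset V := insert u (Ca.image g) with hJ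
  have hJsub : J ⊆ U \ W := by
    intro w hw
    rcases Finset.mem_insert.1 hw with rfl | hw
    · exact Finset.mem_sdiff.2 ⟨hu, huW⟩
    · obtain ⟨z, hz, rfl⟩ := Finset.mem_image.1 hw
      have hz' := Finset.mem_filter.1 hz
      exact Finset.mem_sdiff.2 ⟨(hg z hz'.1).1, hz'.2⟩
  have hJind : G.IsIndepSet (J : Set V) := by
    intro a ha c hc hac
    rw [Finset.mem_coe, hJ, Finset.mem_insert] at ha hc
    rcases ha with rfl | ha <;> rcases hc with rfl | hc
    · exact absurd rfl hac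
    · obtain ⟨z, hz, rfl⟩ := Finset.mem_image.1 hc
      exact hnadj z (Finset.mem_filter.1 hz).1
    · obtain ⟨z, hz, rfl⟩ := Finset.mem_image.1 ha
      intro h
      exact hnadj z (Finset.mem_filter.1 hz).1 h.symm
    · obtain ⟨z, hz, rfl⟩ := Finset.mem_image.1 ha
      obtain ⟨z', hz', rfl⟩ := Finset.mem_image.1 hc
      refine hnn z (Finset.mem_filter.1 hz).1 z' (Finset.mem_filter.1 hz').1 ?_
      rintro rfl
      exact hac rfl
  have hJcard : J.card = Ca.card + 1 := by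
    rw [hJ, Finset.card_insert_of_notMem, Finset.card_image_of_injOn]
    · intro a ha c hc hac
      exact hinj a (Finset.mem_filter.1 (Finset.mem_coe.1 ha)).1 c
        (Finset.mem_filter.1 (Finset.mem_coe.1 hc)).1 hac
    · intro h
      obtain ⟨z, hz, hzu⟩ := Finset.mem_image.1 h
      exact hnu z (Finset.mem_filter.1 hz).1 hzu
  have key := hC J hJsub hJind u (Finset.mem_insert_self _ _)
  have hdU : dU G U u = N.card := rfl
  -- W-part
  have hWb : (N.filter (fun w => w ∈ W)).card + Cb.card ≤ W.card := by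
    have h1 : (N.filter (fun w => w ∈ W)) ⊆ W.filter (fun w => G.Adj u w) := by
      intro w hw
      have := Finset.mem_filter.1 hw
      exact Finset.mem_filter.2 ⟨this.2, ((hNm w).1 this.1).2⟩
    have h2 : Cb.image g ⊆ W.filter (fun w => ¬ G.Adj u w) := by
      intro w hw
      obtain ⟨z, hz, rfl⟩ := Finset.mem_image.1 hw
      have := Finset.mem_filter.1 hz
      exact Finset.mem_filter.2 ⟨this.2, hnadj z this.1⟩
    have h3 : (Cb.image g).card = Cb.card := by
      rw [Finset.card_image_of_injOn]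
      intro a ha c hc hac
      exact hinj a (Finset.mem_filter.1 (Finset.mem_coe.1 ha)).1 c
        (Finset.mem_filter.1 (Finset.mem_coe.1 hc)).1 hac
    have h4 := Finset.card_filter_add_card_filter_not (s := W) (fun w => G.Adj u w)
    have h5 := Finset.card_le_card h1
    have h6 := Finset.card_le_card h2
    omega
  have hpart : N.card ≤ NG.card + C1.card + (N.filter (fun w => w ∈ W)).card := by
    have h1 : N ⊆ (NG ∪ C1) ∪ N.filter (fun w => w ∈ W) := by
      intro w hw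
      rw [Finset.mem_union, Finset.mem_union]
      by_cases hwW : w ∈ W
      · exact Or.inr (Finset.mem_filter.2 ⟨hw, hwW⟩)
      · by_cases hcut : CutV G U w
        · exact Or.inl (Or.inr ((hC1m w).2 ⟨hw, hwW, hcut⟩))
        · exact Or.inl (Or.inl (Finset.mem_filter.2 ⟨hw, hwW, hcut⟩))
    have h2 := Finset.card_le_card h1
    have h3 := Finset.card_union_le (NG ∪ C1) (N.filter (fun w => w ∈ W))
    have h4 := Finset.card_union_le NG C1
    omega
  refine ⟨NG, by omega, ?_⟩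
  intro w hw
  have h1 := Finset.mem_filter.1 hw
  have h2 := (hNm w).1 h1.1
  exact ⟨h2.2, h2.1, h1.2.1, h1.2.2⟩

/-- item (1): far vertices are joined by a path with at least `b + 3` vertices -/
theorem link_of_far {G : SimpleGraph V} [DecidableRel G.Adj] {U W : Finset V} {b : ℕ} (hW : W ⊆ U)
    (hconn : ∀ a ∈ U, ∀ c ∈ U, Rc G (fun w => w ∈ U) a c)
    (hC : ∀ I : Finset V, I ⊆ U \ W → G.IsIndepSet (I : Set V) → ∀ v ∈ I,
      I.card + 1 + W.card + b ≤ dU G U v) {x x' : V} (h : Far G U W x x') :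
    ∃ Q : List V, Seg G Q x x' ∧ Q.Nodup ∧ (∀ z ∈ Q, z ∈ U) ∧ b + 3 ≤ Q.length := by
  classical
  obtain ⟨hne, Q, h1, h2, h3, v, hv, hg⟩ := h
  set U' : Finset V := U.filter (fun w => ∃ Q : List V, Seg G Q x x' ∧ Q.Nodup ∧
    (∀ z ∈ Q, z ∈ U) ∧ w ∈ Q) with hU'
  have hU'm : ∀ w, w ∈ U' ↔ w ∈ U ∧ ∃ Q : List V, Seg G Q x x' ∧ Q.Nodup ∧
    (∀ z ∈ Q, z ∈ U) ∧ w ∈ Q := by intro w; rw [hU', Finset.mem_filter]
  set Low : Finset V := U.filter (fun w => w ∈ W ∨ CutV G U w) with hLow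
  have hxQ : x ∈ Q := by
    obtain ⟨Q1, rfl⟩ := h1.cons''
    simp
  have hx'Q : x' ∈ Q := List.mem_of_getLast? h1.lt
  have hgood : ∀ w ∈ U', w ∉ Low → w ∉ W ∧ ¬ CutV G U w := by
    intro w hw hwL
    have hwU := ((hU'm w).1 hw).1
    rw [hLow, Finset.mem_filter] at hwL
    constructor
    · intro h
      exact hwL ⟨hwU, Or.inl h⟩
    · intro h
      exact hwL ⟨hwU, Or.inr h⟩
  have hnbr : ∀ w ∈ U', ¬ CutV G U w → ∀ w' ∈ U, G.Adj w w' → w' ∈ U' := by
    intro w hw hcut w' hw' hadj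
    obtain ⟨hwU, Q0, a1, a2, a3, a4⟩ := (hU'm w).1 hw
    obtain ⟨Q', b1, b2, b3, b4⟩ := nbr_on_path hne a1 a2 a3 a4 hcut hw' hadj
    exact (hU'm w').2 ⟨hw', Q', b1, b2, b3, b4⟩
  have hsub : ∀ w ∈ U', w ∈ U := fun w hw => ((hU'm w).1 hw).1
  obtain ⟨Q2, c1, c2, c3, c4⟩ := eg_low (G := G) Low (U := U') (x := x) (y := x') (d := b + 2)
    ((hU'm x).2 ⟨h3 x hxQ, Q, h1, h2, h3, hxQ⟩) ((hU'm x').2 ⟨h3 x' hx'Q, Q, h1, h2, h3, hx'Q⟩)
    hne (by
      intro v' u hu huL huv
      obtain ⟨huU, Q0, a1, a2, a3, a4⟩ := (hU'm u).1 hu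
      obtain ⟨A, B, rfl⟩ := List.append_of_mem a4
      have hs := a1.split'
      have hallU' : ∀ z ∈ A ++ u :: B, z ∈ U' := fun z hz =>
        (hU'm z).2 ⟨a3 z hz, _, a1, a2, a3, hz⟩
      by_cases hvA : v' ∈ A
      · refine ⟨x', Or.inr rfl, ?_, ?_⟩
        · rintro rfl
          exact (List.nodup_append.1 a2).2.2 x' hvA x' (List.mem_of_getLast? hs.2.lt) rfl
        · apply seg_rc hs.2
          intro z hz
          refine ⟨hallU' z (List.mem_append_right _ hz), ?_⟩
          rintro rfl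
          exact (List.nodup_append.1 a2).2.2 z hvA z hz rfl
      · refine ⟨x, Or.inl rfl, ?_, ?_⟩
        · rintro rfl
          obtain ⟨A1, hA1⟩ := hs.1.cons''
          rcases A with _ | ⟨a, A⟩
          · simp at hA1
            exact huv hA1.1
          · simp at hA1
            exact hvA (by simp [hA1.1])
        · have hS : ∀ z ∈ A ++ [u], z ∈ U' ∧ z ≠ v' := by
            intro z hz
            refine ⟨hallU' z (by simp at hz ⊢; tauto), ?_⟩
            rintro rfl
            rcases List.mem_append.1 hz with hz | hz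
            · exact hvA hz
            · simp at hz
              exact huv hz.symm
          apply seg_rc hs.1.rev
          intro z hz
          exact hS z (List.mem_reverse.1 hz))
    (by
      have hvU' : v ∈ U' := (hU'm v).2 ⟨hg.1, Q, h1, h2, h3, hv⟩
      have hvL : v ∉ Low := by
        rw [hLow, Finset.mem_filter]
        rintro ⟨_, h | h⟩
        · exact hg.2.1 h
        · exact hg.2.2 h
      by_cases hvx : v ≠ x ∧ v ≠ x'
      · exact ⟨v, hvU', hvL, hvx.1, hvx.2⟩
      · obtain ⟨N, hN1, hN2⟩ := good_deg hW hconn hC hg.1 hg.2.1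
        have hN3 : 1 < N.card := by omega
        have hfin : ∀ t : V, (v = x ∧ t = x') ∨ (v = x' ∧ t = x) →
            ∃ u ∈ U', u ∉ Low ∧ u ≠ x ∧ u ≠ x' := by
          intro t ht
          obtain ⟨w, hw, hwt⟩ := Finset.exists_mem_ne hN3 t
          obtain ⟨hadj, hwg⟩ := hN2 w hw
          have hwL : w ∉ Low := by
            rw [hLow, Finset.mem_filter]
            rintro ⟨_, h | h⟩
            · exact hwg.2.1 h
            · exact hwg.2.2 h
          have hwU' := hnbr v hvU' hg.2.2 w hwg.1 hadj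
          rcases ht with ⟨hvx', rfl⟩ | ⟨hvx', rfl⟩
          · exact ⟨w, hwU', hwL, by rw [← hvx']; exact hadj.ne', hwt⟩
          · exact ⟨w, hwU', hwL, hwt, by rw [← hvx']; exact hadj.ne'⟩
        by_cases h5 : v = x
        · exact hfin x' (Or.inl ⟨h5, rfl⟩)
        · have h6 : v = x' := by
            by_contra h
            exact hvx ⟨h5, h⟩
          exact hfin x (Or.inr ⟨h6, rfl⟩))
    (by
      intro u hu huL hux hux'
      obtain ⟨huW, hucut⟩ := hgood u hu huL
      obtain ⟨N, hN1, hN2⟩ := good_deg hW hconn hC (hsub u hu) huW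
      refine hN1.trans (Finset.card_le_card ?_)
      intro w hw
      obtain ⟨hadj, hwg⟩ := hN2 w hw
      rw [Finset.mem_filter]
      refine ⟨hnbr u hu hucut w hwg.1 hadj, hadj, Or.inl ?_⟩
      rw [hLow, Finset.mem_filter]
      rintro ⟨_, h | h⟩
      · exact hwg.2.1 h
      · exact hwg.2.2 h)
  exact ⟨Q2, c1, c2, fun z hz => hsub z (c3 z hz), c4⟩

/-- a hub with two far neighbours has long links to every vertex -/
theorem rich_link {G : SimpleGraph V} [DecidableRel G.Adj] {U W : Finset V} {b : ℕ} (hW : W ⊆ U)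
    (hconn : ∀ a ∈ U, ∀ c ∈ U, Rc G (fun w => w ∈ U) a c)
    (hC : ∀ I : Finset V, I ⊆ U \ W → G.IsIndepSet (I : Set V) → ∀ v ∈ I,
      I.card + 1 + W.card + b ≤ dU G U v) {x x' y : V} (h : Far G U W x x') (hy : y ∈ U) :
    ∃ z, (z = x ∨ z = x') ∧ ∃ Q : List V, Seg G Q z y ∧ Q.Nodup ∧ (∀ z ∈ Q, z ∈ U) ∧
      b + 3 ≤ Q.length := by
  rcases h.tri hconn hy with h1 | h1
  · exact ⟨x, Or.inl rfl, link_of_far hW hconn hC h1⟩
  · exact ⟨x', Or.inr rfl, link_of_far hW hconn hC h1.symm⟩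

end Pool.Agent.H76B
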