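import Pool.Agent.TFG.EG

/-! The path lemma of Erdős and Gallai with a set `Low` of exceptional vertices. -/

namespace Pool.Agent.H76B

open List Pool.Agent.TF82 Pool.Agent.TFC Pool.Agent.TFG

universe u

set_option linter.unusedSectionVars false
set_option linter.unusedVariables false

variable {V : Type u} [DecidableEq V]

theorem eg_low_aux {G : SimpleGraph V} [DecidableRel G.Adj] (Low : Finset V) :
    ∀ (n : ℕ) (U : Finset V) (x y : V) (d : ℕ), U.card ≤ n → x ∈ U → y ∈ U → x ≠ y →
    (∀ v, ∀ u ∈ U, u ∉ Low → u ≠ v →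
      ∃ z, (z = x ∨ z = y) ∧ z ≠ v ∧ Rc G (fun w => w ∈ U ∧ w ≠ v) u z) →
    (∃ u ∈ U, u ∉ Low ∧ u ≠ x ∧ u ≠ y) →
    (∀ u ∈ U, u ∉ Low → u ≠ x → u ≠ y →
      d ≤ (U.filter (fun w => G.Adj u w ∧ (w ∉ Low ∨ w = x ∨ w = y))).card) →
    ∃ Q : List V, Seg G Q x y ∧ Q.Nodup ∧ (∀ z ∈ Q, z ∈ U) ∧ d + 1 ≤ Q.length := by
  classical
  intro n
  induction n with
  | zero =>
    intro U x y d hn hx
    rw [Nat.le_zero, Finset.card_eq_zero] at hn
    rw [hn] at hx
    simp at hx
  | succ n ih =>
    intro U x y d hn hx hy hxy hcon hex hdeg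
    by_cases hB : ∃ b ∈ U, b ≠ x ∧ b ≠ y ∧ ∃ u ∈ U, u ∉ Low ∧ u ≠ y ∧ u ≠ b ∧
        ¬ Rc G (fun w => w ∈ U ∧ w ≠ y ∧ w ≠ b) u x
    · -- case B
      obtain ⟨b, hbU, hbx, hby, u0, hu0, hu0L, hu0y, hu0b, hu0n⟩ := hB
      set C : Finset V := U.filter (fun u => u ≠ y ∧ u ≠ b ∧
        ¬ Rc G (fun w => w ∈ U ∧ w ≠ y ∧ w ≠ b) u x) with hC
      have hCm : ∀ u, u ∈ C ↔ u ∈ U ∧ u ≠ y ∧ u ≠ b ∧
          ¬ Rc G (fun w => w ∈ U ∧ w ≠ y ∧ w ≠ b) u x := by
        intro u; rw [hC, Finset.mem_filter]
      set U' : Finset V := insert b (insert y C) with hU'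
      have hU'm : ∀ u, u ∈ U' ↔ u = b ∨ u = y ∨ u ∈ C := by
        intro u; rw [hU']; simp [Finset.mem_insert]
      have hxC : x ∉ C := by
        intro h
        exact ((hCm x).1 h).2.2.2 Relation.ReflTransGen.refl
      have hxU' : x ∉ U' := by
        rw [hU'm]
        rintro (h | h | h)
        · exact hbx h.symm
        · exact hxy h
        · exact hxC h
      have hsub : U' ⊆ U := by
        intro u hu
        rcases (hU'm u).1 hu with rfl | rfl | h
        · exact hbU
        · exact hy
        · exact ((hCm u).1 h).1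
      have hcard : U'.card ≤ n := by
        have : U'.card < U.card := Finset.card_lt_card
          ⟨hsub, fun h => hxU' (h hx)⟩
        omega
      -- closure of C
      have hclo : ∀ u ∈ C, ∀ w ∈ U, G.Adj u w → w ∈ U' := by
        intro u hu w hw huw
        rw [hU'm]
        by_cases h1 : w = b
        · exact Or.inl h1
        by_cases h2 : w = y
        · exact Or.inr (Or.inl h2)
        refine Or.inr (Or.inr ((hCm w).2 ⟨hw, h2, h1, ?_⟩))
        intro h
        exact ((hCm u).1 hu).2.2.2 (Relation.ReflTransGen.head ⟨huw, hw, h2, h1⟩ h)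
      obtain ⟨Q', hQ', hn', hs', hl'⟩ := ih U' b y d hcard
        ((hU'm b).2 (Or.inl rfl)) ((hU'm y).2 (Or.inr (Or.inl rfl))) hby (by
          intro v u hu huL huv
          -- general claim
          have claim : ∀ z, (z = x ∨ z = y) → ∀ a, Rc G (fun w => w ∈ U ∧ w ≠ v) a z →
              a ∈ U' → a ≠ v →
              ∃ z', (z' = b ∨ z' = y) ∧ z' ≠ v ∧ Rc G (fun w => w ∈ U' ∧ w ≠ v) a z' := by
            intro z hz a ha
            refine Relation.ReflTransGen.head_induction_on ha ?_ ?_
            · intro hzU' hzv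
              rcases hz with rfl | rfl
              · exact absurd hzU' hxU'
              · exact ⟨z, Or.inr rfl, hzv, Relation.ReflTransGen.refl⟩
            · intro a a' haa' ha' iha haU' hav
              rcases (hU'm a).1 haU' with rfl | rfl | h
              · exact ⟨a, Or.inl rfl, hav, Relation.ReflTransGen.refl⟩
              · exact ⟨a, Or.inr rfl, hav, Relation.ReflTransGen.refl⟩
              · have ha'U' : a' ∈ U' := hclo a h a' haa'.2.1 haa'.1
                obtain ⟨z', hz', hz'v, hr⟩ := iha ha'U' haa'.2.2
                exact ⟨z', hz', hz'v, Relation.ReflTransGen.head ⟨haa'.1, ha'U', haa'.2.2⟩ hr⟩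
          obtain ⟨z, hz, hzv, hr⟩ := hcon v u (hsub hu) huL huv
          exact claim z hz u hr hu huv)
        ⟨u0, (hU'm u0).2 (Or.inr (Or.inr ((hCm u0).2 ⟨hu0, hu0y, hu0b, hu0n⟩))), hu0L, hu0b, hu0y⟩
        (by
          intro u hu huL hub huy
          have huC : u ∈ C := by
            rcases (hU'm u).1 hu with h | h | h
            · exact absurd h hub
            · exact absurd h huy
            · exact h
          have hux : u ≠ x := fun h => hxC (h ▸ huC)
          refine (hdeg u (hsub hu) huL hux huy).trans ?_
          apply Finset.card_le_card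
          intro w hw
          rw [Finset.mem_filter] at hw ⊢
          have hwU' := hclo u huC w hw.1 hw.2.1
          refine ⟨hwU', hw.2.1, ?_⟩
          rcases hw.2.2 with h | h | h
          · exact Or.inl h
          · exact absurd (h ▸ hwU') hxU'
          · exact Or.inr (Or.inr h))
      -- a neighbour a of b that reaches x
      have hP : ∀ w, Rc G (fun w => w ∈ U ∧ w ≠ y) w x →
          Rc G (fun w => w ∈ U ∧ w ≠ y ∧ w ≠ b) w x ∨
          ∃ a, G.Adj b a ∧ a ∈ U ∧ a ≠ y ∧ a ≠ b ∧
            Rc G (fun w => w ∈ U ∧ w ≠ y ∧ w ≠ b) a x := by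
        intro w hw
        refine Relation.ReflTransGen.head_induction_on hw ?_ ?_
        · exact Or.inl Relation.ReflTransGen.refl
        · intro w w' hww' hw' ihw
          rcases ihw with h | h
          · by_cases hb : w' = b
            · subst hb
              rcases Relation.ReflTransGen.cases_head h with h1 | ⟨a, h1, h2⟩
              · exact absurd h1 hbx
              · exact Or.inr ⟨a, h1.1, h1.2.1, h1.2.2.1, h1.2.2.2, h2⟩
            · exact Or.inl (Relation.ReflTransGen.head ⟨hww'.1, hww'.2.1, hww'.2.2, hb⟩ h)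
          · exact Or.inr h
      have hux' : Rc G (fun w => w ∈ U ∧ w ≠ y) u0 x := by
        obtain ⟨z, hz, hzv, hr⟩ := hcon y u0 hu0 hu0L hu0y
        rcases hz with rfl | rfl
        · exact hr
        · exact absurd rfl hzv
      have hex2 : ∃ a, G.Adj b a ∧ a ∈ U ∧ a ≠ y ∧ a ≠ b ∧
            Rc G (fun w => w ∈ U ∧ w ≠ y ∧ w ≠ b) a x := by
        rcases hP u0 hux' with h | h
        · exact absurd h hu0n
        · exact h
      obtain ⟨a, hba, haU, hay, hab, har⟩ := hex2
      obtain ⟨P, hP1, hP2, hP3⟩ := har.path ⟨haU, hay, hab⟩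
      refine ⟨P.reverse ++ Q', hP1.rev.append hQ' hba.symm, ?_, ?_, ?_⟩
      · rw [List.nodup_append]
        refine ⟨List.nodup_reverse.2 hP2, hn', ?_⟩
        intro w hw w' hw' hww'
        subst hww'
        rw [List.mem_reverse] at hw
        obtain ⟨⟨h1, h2, h3⟩, h4⟩ := hP3 w hw
        rcases (hU'm w).1 (hs' w hw') with h | h | h
        · exact h3 h
        · exact h2 h
        · exact ((hCm w).1 h).2.2.2 h4
      · intro z hz
        rcases List.mem_append.1 hz with h | h
        · exact (hP3 z (List.mem_reverse.1 h)).1.1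
        · exact hsub (hs' z h)
      · rw [List.length_append]
        omega
    · -- case A
      have hA : ∀ b ∈ U, b ≠ x → b ≠ y → ∀ u ∈ U, u ∉ Low → u ≠ y → u ≠ b →
          Rc G (fun w => w ∈ U ∧ w ≠ y ∧ w ≠ b) u x := by
        intro b hb hbx hby u hu huL huy hub
        by_contra hcontra
        exact hB ⟨b, hb, hbx, hby, u, hu, huL, huy, hub, hcontra⟩
      obtain ⟨u0, hu0, hu0L, hu0x, hu0y⟩ := hex
      -- a neighbour of y
      have hy' : ∃ y', y' ∈ U ∧ y' ≠ x ∧ G.Adj y' y ∧
          Rc G (fun w => w ∈ U ∧ w ≠ x ∧ w ≠ y) u0 y' := by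
        obtain ⟨z, hz, hzv, hr⟩ := hcon x u0 hu0 hu0L hu0x
        have hzy : z = y := by
          rcases hz with h | h
          · exact absurd h hzv
          · exact h
        subst hzy
        have key : ∀ a, Rc G (fun w => w ∈ U ∧ w ≠ x) a z → a ∈ U → a ≠ x → a ≠ z →
            ∃ y', y' ∈ U ∧ y' ≠ x ∧ G.Adj y' z ∧
              Rc G (fun w => w ∈ U ∧ w ≠ x ∧ w ≠ z) a y' := by
          intro a ha
          refine Relation.ReflTransGen.head_induction_on ha ?_ ?_
          · intro _ _ h
            exact absurd rfl h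
          · intro a a' haa' ha' iha haU hax haz
            by_cases h : a' = z
            · refine ⟨a, haU, hax, ?_, Relation.ReflTransGen.refl⟩
              rw [← h]
              exact haa'.1
            · obtain ⟨y', h1, h2, h3, h4⟩ := iha haa'.2.1 haa'.2.2 h
              exact ⟨y', h1, h2, h3, Relation.ReflTransGen.head ⟨haa'.1, haa'.2.1, haa'.2.2, h⟩ h4⟩
        exact key u0 hr hu0 hu0x hu0y
      obtain ⟨y', hy'U, hy'x, hy'y, hu0y'⟩ := hy'
      have hy'ny : y' ≠ y := hy'y.ne
      set D : Finset V := U.filter (fun u => u ≠ x ∧ u ≠ y ∧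
        Rc G (fun w => w ∈ U ∧ w ≠ x ∧ w ≠ y) u y') with hD
      have hDm : ∀ u, u ∈ D ↔ u ∈ U ∧ u ≠ x ∧ u ≠ y ∧
          Rc G (fun w => w ∈ U ∧ w ≠ x ∧ w ≠ y) u y' := by
        intro u; rw [hD, Finset.mem_filter]
      have hy'D : y' ∈ D := (hDm y').2 ⟨hy'U, hy'x, hy'ny, Relation.ReflTransGen.refl⟩
      -- closure of D
      have hclo : ∀ u ∈ D, ∀ w ∈ U, G.Adj u w → w ≠ y → w ≠ x → w ∈ D := by
        intro u hu w hw huw hwy hwx
        refine (hDm w).2 ⟨hw, hwx, hwy, ?_⟩
        have hu' := (hDm u).1 hu
        exact Relation.ReflTransGen.head ⟨huw.symm, hu'.1, hu'.2.1, hu'.2.2.1⟩ hu'.2.2.2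
      set U' : Finset V := insert x D with hU'
      have hU'm : ∀ u, u ∈ U' ↔ u = x ∨ u ∈ D := by
        intro u; rw [hU']; simp [Finset.mem_insert]
      have hyU' : y ∉ U' := by
        rw [hU'm]
        rintro (h | h)
        · exact hxy h.symm
        · exact ((hDm y).1 h).2.2.1 rfl
      have hsub : U' ⊆ U := by
        intro u hu
        rcases (hU'm u).1 hu with rfl | h
        · exact hx
        · exact ((hDm u).1 h).1
      have hcard : U'.card ≤ n := by
        have : U'.card < U.card := Finset.card_lt_card ⟨hsub, fun h => hyU' (h hy)⟩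
        omega
      have hcloU : ∀ u ∈ D, ∀ w ∈ U, G.Adj u w → w ≠ y → w ∈ U' := by
        intro u hu w hw huw hwy
        rw [hU'm]
        by_cases h : w = x
        · exact Or.inl h
        · exact Or.inr (hclo u hu w hw huw hwy h)
      have hu0D : u0 ∈ D := (hDm u0).2 ⟨hu0, hu0x, hu0y, hu0y'⟩
      by_cases hDone : ∃ u1 ∈ D, u1 ∉ Low ∧ u1 ≠ y'
      · obtain ⟨u1, hu1, hu1L, hu1y'⟩ := hDone
        obtain ⟨Q', hQ', hn', hs', hl'⟩ := ih U' x y' (d - 1) hcard
          ((hU'm x).2 (Or.inl rfl)) ((hU'm y').2 (Or.inr hy'D)) (Ne.symm hy'x) (by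
            intro v u hu huL huv
            rcases (hU'm u).1 hu with rfl | huD
            · exact ⟨u, Or.inl rfl, huv, Relation.ReflTransGen.refl⟩
            by_cases hvD : v ∈ D
            · -- reach x
              have hv := (hDm v).1 hvD
              have hud := (hDm u).1 huD
              have hr := hA v hv.1 hv.2.1 hv.2.2.1 u hud.1 huL hud.2.2.1 huv
              refine ⟨x, Or.inl rfl, fun h => hv.2.1 h.symm, ?_⟩
              have claim : ∀ a, Rc G (fun w => w ∈ U ∧ w ≠ y ∧ w ≠ v) a x → a ∈ U' →
                  Rc G (fun w => w ∈ U' ∧ w ≠ v) a x := by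
                intro a ha
                refine Relation.ReflTransGen.head_induction_on ha ?_ ?_
                · intro _
                  exact Relation.ReflTransGen.refl
                · intro a a' haa' ha' iha haU'
                  rcases (hU'm a).1 haU' with rfl | haD
                  · exact Relation.ReflTransGen.refl
                  · have h1 : a' ∈ U' := hcloU a haD a' haa'.2.1 haa'.1 haa'.2.2.1
                    exact Relation.ReflTransGen.head ⟨haa'.1, h1, haa'.2.2.2⟩ (iha h1)
              exact claim u hr hu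
            · -- reach y'
              refine ⟨y', Or.inr rfl, fun h => hvD (h ▸ hy'D), ?_⟩
              have claim : ∀ a, Rc G (fun w => w ∈ U ∧ w ≠ x ∧ w ≠ y) a y' → a ∈ D →
                  Rc G (fun w => w ∈ U' ∧ w ≠ v) a y' := by
                intro a ha
                refine Relation.ReflTransGen.head_induction_on ha ?_ ?_
                · intro _
                  exact Relation.ReflTransGen.refl
                · intro a a' haa' ha' iha haD
                  have h1 : a' ∈ D := hclo a haD a' haa'.2.1 haa'.1 haa'.2.2.2 haa'.2.2.1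
                  refine Relation.ReflTransGen.head ⟨haa'.1, (hU'm a').2 (Or.inr h1), ?_⟩ (iha h1)
                  intro h
                  exact hvD (h ▸ h1)
              exact claim u ((hDm u).1 huD).2.2.2 huD)
          ⟨u1, (hU'm u1).2 (Or.inr hu1), hu1L, ((hDm u1).1 hu1).2.1, hu1y'⟩
          (by
            intro u hu huL hux huy'
            have huD : u ∈ D := by
              rcases (hU'm u).1 hu with h | h
              · exact absurd h hux
              · exact h
            have h1 := hdeg u (hsub hu) huL hux ((hDm u).1 huD).2.2.1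
            have h2 : (U.filter (fun w => G.Adj u w ∧ (w ∉ Low ∨ w = x ∨ w = y))).card ≤
                (U'.filter (fun w => G.Adj u w ∧ (w ∉ Low ∨ w = x ∨ w = y'))).card + 1 := by
              have : U.filter (fun w => G.Adj u w ∧ (w ∉ Low ∨ w = x ∨ w = y)) ⊆
                  insert y (U'.filter (fun w => G.Adj u w ∧ (w ∉ Low ∨ w = x ∨ w = y'))) := by
                intro w hw
                rw [Finset.mem_filter] at hw
                rw [Finset.mem_insert, Finset.mem_filter]
                by_cases hwy : w = y
                · exact Or.inl hwy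
                · refine Or.inr ⟨hcloU u huD w hw.1 hw.2.1 hwy, hw.2.1, ?_⟩
                  rcases hw.2.2 with h | h | h
                  · exact Or.inl h
                  · exact Or.inr (Or.inl h)
                  · exact absurd h hwy
              exact (Finset.card_le_card this).trans (Finset.card_insert_le _ _)
            omega)
        refine ⟨Q' ++ [y], hQ'.append ⟨by simp, by simp, by simp⟩ hy'y, ?_, ?_, ?_⟩
        · rw [List.nodup_append]
          refine ⟨hn', by simp, ?_⟩
          intro w hw w' hw' hww'
          simp at hw'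
          subst hww'
          exact hyU' (hw' ▸ hs' w hw)
        · intro z hz
          rcases List.mem_append.1 hz with h | h
          · exact hsub (hs' z h)
          · simp at h
            rw [h]
            exact hy
        · rw [List.length_append]
          simp
          omega
      · -- only y' in D outside Low
        have hDs : ∀ u ∈ D, u ∉ Low → u = y' := by
          intro u hu huL
          by_contra h
          exact hDone ⟨u, hu, huL, h⟩
        have hu0y'' : u0 = y' := hDs u0 hu0D hu0L
        have hd2 : d ≤ 2 := by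
          refine (hdeg u0 hu0 hu0L hu0x hu0y).trans ?_
          have : U.filter (fun w => G.Adj u0 w ∧ (w ∉ Low ∨ w = x ∨ w = y)) ⊆ {x, y} := by
            intro w hw
            rw [Finset.mem_filter] at hw
            rw [Finset.mem_insert, Finset.mem_singleton]
            by_contra hcon2
            push Not at hcon2
            have h1 := hclo u0 hu0D w hw.1 hw.2.1 hcon2.2 hcon2.1
            have hwL : w ∉ Low := by
              rcases hw.2.2 with h | h | h
              · exact h
              · exact absurd h hcon2.1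
              · exact absurd h hcon2.2
            have h2 := hDs w h1 hwL
            rw [h2, ← hu0y''] at hw
            exact G.loopless.irrefl _ hw.2.1
          exact (Finset.card_le_card this).trans Finset.card_le_two
        have hux' : Rc G (fun w => w ∈ U ∧ w ≠ y) u0 x := by
          obtain ⟨z, hz, hzv, hr⟩ := hcon y u0 hu0 hu0L hu0y
          rcases hz with rfl | rfl
          · exact hr
          · exact absurd rfl hzv
        obtain ⟨P, hP1, hP2, hP3⟩ := hux'.path ⟨hu0, hu0y⟩
        have hu0adj : G.Adj u0 y := by rw [hu0y'']; exact hy'y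
        refine ⟨P.reverse ++ [y], hP1.rev.append ⟨by simp, by simp, by simp⟩ hu0adj, ?_, ?_, ?_⟩
        · rw [List.nodup_append]
          refine ⟨List.nodup_reverse.2 hP2, by simp, ?_⟩
          intro w hw w' hw' hww'
          simp at hw'
          subst hww'
          rw [List.mem_reverse] at hw
          exact (hP3 w hw).1.2 hw'
        · intro z hz
          rcases List.mem_append.1 hz with h | h
          · exact (hP3 z (List.mem_reverse.1 h)).1.1
          · simp at h
            rw [h]
            exact hy
        · have hPl : 2 ≤ P.length := by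
            rcases P with _ | ⟨p1, _ | ⟨p2, P⟩⟩
            · have := hP1.hd
              simp at this
            · have h1 := hP1.hd
              have h2 := hP1.lt
              simp at h1 h2
              exact absurd (h1.symm.trans h2) hu0x
            · simp
          rw [List.length_append, List.length_reverse]
          simp
          omega

/-- Erdős–Gallai with exceptional vertices: every vertex outside `Low` reaches `x` or `y` also
after the deletion of any vertex, and has at least `d` neighbours outside `Low` or in `{x, y}`. -/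
theorem eg_low {G : SimpleGraph V} [DecidableRel G.Adj] (Low : Finset V) {U : Finset V} {x y : V}
    {d : ℕ} (hx : x ∈ U) (hy : y ∈ U) (hxy : x ≠ y)
    (hcon : ∀ v, ∀ u ∈ U, u ∉ Low → u ≠ v → ∃ z, (z = x ∨ z = y) ∧ z ≠ v ∧
      Rc G (fun w => w ∈ U ∧ w ≠ v) u z)
    (hex : ∃ u ∈ U, u ∉ Low ∧ u ≠ x ∧ u ≠ y)
    (hdeg : ∀ u ∈ U, u ∉ Low → u ≠ x → u ≠ y →
      d ≤ (U.filter (fun w => G.Adj u w ∧ (w ∉ Low ∨ w = x ∨ w = y))).card) :
    ∃ Q : List V, Seg G Q x y ∧ Q.Nodup ∧ (∀ z ∈ Q, z ∈ U) ∧ d + 1 ≤ Q.length :=
  eg_low_aux Low U.card U x y d le_rfl hx hy hxy hcon hex hdeg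

end Pool.Agent.H76B
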